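import Pool.Agent.H60.ZA.Ser

/-! Analyticity and growth of the averages. -/

set_option autoImplicit false

open Complex MeasureTheory Filter Topology Metric Set
open Pool.Agent.R747.TL Pool.Agent.TH804.SS Pool.Agent.H60.WM

namespace Pool.Agent.H60.ZA

/-- `P(ζ)` -/
noncomputable def gP (P : Polynomial ℂ) (u : ℂ) : ℂ := P.eval (riemannZeta u)

lemma gP_an (P : Polynomial ℂ) {u : ℂ} (hu : 0 < u.im) : AnalyticAt ℂ (gP P) u := by
  have h : DifferentiableOn ℂ (gP P) {z : ℂ | 0 < z.im} := fun z hz =>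
    (P.differentiable.differentiableAt.comp z (zdiff hz)).differentiableWithinAt
  exact h.analyticAt ((isOpen_lt continuous_const continuous_im).mem_nhds hu)

lemma FF_deriv {μ : Measure ℂ} {w : ℂ → ℂ} {R : ℝ} (hg : Good μ w R) (P : Polynomial ℂ) {s : ℂ} (hs : R < s.im) :
    DifferentiableAt ℂ (FF μ w P) s := by
  set r : ℝ := (s.im - R) / 2 with hr
  have hr0 : 0 < r := by rw [hr]; linarith
  have him : ∀ x ∈ closedBall s r, ∀ z : ℂ, ‖z‖ ≤ R → 0 < (x + z).im := by
    intro x hx z hz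
    rw [mem_closedBall, dist_eq_norm] at hx
    have h1 := abs_le.1 ((Complex.abs_im_le_norm (x - s)).trans hx)
    have h2 := abs_le.1 ((Complex.abs_im_le_norm z).trans hz)
    rw [sub_im] at h1
    rw [add_im]
    linarith [h1.1, h2.1]
  have hcont : ContinuousOn (fun p : ℂ × ℂ => deriv (gP P) (p.1 + p.2)) (closedBall s r ×ˢ KR R) := by
    intro p hp
    have h0 := him p.1 hp.1 p.2 hp.2.2
    have h1 : ContinuousAt (deriv (gP P)) (p.1 + p.2) := (gP_an P h0).deriv.continuousAt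
    exact (ContinuousAt.comp (f := fun p : ℂ × ℂ => p.1 + p.2) h1 (by fun_prop)).continuousWithinAt
  obtain ⟨M, hM⟩ := ((isCompact_closedBall s r).prod (KR_compact R)).exists_bound_of_continuousOn hcont
  have h := hasDerivAt_integral_of_dominated_loc_of_deriv_le (μ := μ) (x₀ := s) (s := ball s r)
    (F := fun x z => w z * gP P (x + z)) (F' := fun x z => w z * deriv (gP P) (x + z))
    (bound := fun z => ‖w z‖ * M) (ball_mem_nhds s hr0) ?_ ?_ ?_ ?_ (hg.int.norm.mul_const _) ?_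
  · exact h.2.differentiableAt
  · filter_upwards [ball_mem_nhds s hr0] with x hx
    refine (hg.int_cont ?_).aestronglyMeasurable
    intro z hz
    have h0 := him x (ball_subset_closedBall hx) z hz.2
    exact (ContinuousAt.comp (f := fun z : ℂ => x + z) (gP_an P h0).continuousAt (by fun_prop)).continuousWithinAt
  · refine hg.int_cont ?_
    intro z hz
    have h0 := him s (mem_closedBall_self hr0.le) z hz.2
    exact (ContinuousAt.comp (f := fun z : ℂ => s + z) (gP_an P h0).continuousAt (by fun_prop)).continuousWithinAt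
  · refine (hg.int_cont ?_).aestronglyMeasurable
    intro z hz
    have h0 := him s (mem_closedBall_self hr0.le) z hz.2
    exact (ContinuousAt.comp (f := fun z : ℂ => s + z) (gP_an P h0).deriv.continuousAt (by fun_prop)).continuousWithinAt
  · filter_upwards [hg.supp] with z hz x hx
    rw [norm_mul]
    exact mul_le_mul_of_nonneg_left (hM (x, z) ⟨ball_subset_closedBall hx, hz⟩) (norm_nonneg _)
  · filter_upwards [hg.supp] with z hz x hx
    have h0 := him x (ball_subset_closedBall hx) z hz.2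
    have h1 := (gP_an P h0).differentiableAt.hasDerivAt
    have h2 : HasDerivAt (fun x : ℂ => x + z) 1 x := (hasDerivAt_id x).add_const z
    have h3 := (h1.comp x h2).const_mul (w z)
    simpa using h3

lemma FF_an {μ : Measure ℂ} {w : ℂ → ℂ} {R : ℝ} (hg : Good μ w R) (P : Polynomial ℂ) {s : ℂ} (hs : R < s.im) :
    AnalyticAt ℂ (FF μ w P) s := by
  have h : DifferentiableOn ℂ (FF μ w P) {z : ℂ | R < z.im} := fun z hz => (FF_deriv hg P hz).differentiableWithinAt
  exact h.analyticAt ((isOpen_lt continuous_const continuous_im).mem_nhds hs)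

lemma poly_bound (P : Polynomial ℂ) : ∃ C : ℝ, 0 < C ∧ ∀ x : ℂ, ‖P.eval x‖ ≤ C * (1 + ‖x‖) ^ P.natDegree := by
  refine ⟨∑ i ∈ Finset.range (P.natDegree + 1), ‖P.coeff i‖ + 1, ?_, fun x => ?_⟩
  · have : 0 ≤ ∑ i ∈ Finset.range (P.natDegree + 1), ‖P.coeff i‖ := Finset.sum_nonneg fun _ _ => norm_nonneg _
    linarith
  · rw [Polynomial.eval_eq_sum_range]
    have h1 : 0 ≤ ‖x‖ := norm_nonneg _
    have hp : 0 ≤ (1 + ‖x‖) ^ P.natDegree := by positivity
    calc _ ≤ ∑ i ∈ Finset.range (P.natDegree + 1), ‖P.coeff i * x ^ i‖ := norm_sum_le _ _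
      _ ≤ ∑ i ∈ Finset.range (P.natDegree + 1), ‖P.coeff i‖ * (1 + ‖x‖) ^ P.natDegree := by
          refine Finset.sum_le_sum fun i hi => ?_
          rw [norm_mul, norm_pow]
          have h2 : ‖x‖ ^ i ≤ (1 + ‖x‖) ^ P.natDegree :=
            (pow_le_pow_left₀ h1 (by linarith) i).trans
              (pow_le_pow_right₀ (by linarith) (Nat.lt_succ_iff.1 (Finset.mem_range.1 hi)))
          exact mul_le_mul_of_nonneg_left h2 (norm_nonneg _)
      _ = (∑ i ∈ Finset.range (P.natDegree + 1), ‖P.coeff i‖) * (1 + ‖x‖) ^ P.natDegree := by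
          rw [Finset.sum_mul]
      _ ≤ _ := by nlinarith

lemma FF_le {μ : Measure ℂ} {w : ℂ → ℂ} {R : ℝ} (hg : Good μ w R) {P : Polynomial ℂ} {C : ℝ}
    (hC : ∀ x : ℂ, ‖P.eval x‖ ≤ C * (1 + ‖x‖) ^ P.natDegree) (hC0 : 0 < C) {s : ℂ} {M : ℝ}
    (hM : ∀ z : ℂ, 0 ≤ z.re → ‖z‖ ≤ R → ‖riemannZeta (s + z)‖ ≤ M) :
    ‖FF μ w P s‖ ≤ tm μ w * (C * (1 + M) ^ P.natDegree) := by
  unfold FF tm
  rw [← integral_mul_const]
  refine norm_integral_le_of_norm_le (hg.int.norm.mul_const _) ?_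
  filter_upwards [hg.supp] with z hz
  rw [norm_mul]
  refine mul_le_mul_of_nonneg_left ((hC _).trans ?_) (norm_nonneg _)
  have := hM z hz.1 hz.2
  gcongr

/-- functions with the size of zeta -/
structure Nice (F : ℂ → ℂ) (R : ℝ) : Prop where
  R0 : 0 ≤ R
  an : ∀ s : ℂ, R < s.im → AnalyticAt ℂ F s
  gr : ∃ B : ℝ, 0 ≤ B ∧ ∀ W : ℝ, ∃ T0 : ℝ, 3 ≤ T0 ∧ ∀ T : ℝ, T0 ≤ T → ∀ s : ℂ, -1 ≤ s.re → |s.im - T| ≤ W →
    ‖F s‖ ≤ Real.exp (B * Real.log T)
  bd : ∃ C : ℝ, 0 < C ∧ ∀ s : ℂ, 2 ≤ s.re → ‖F s‖ ≤ C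
  alt : (∀ s : ℂ, R < s.im → F s = 0) ∨ ∃ X : ℝ, 2 ≤ X ∧ (∀ s : ℂ, X ≤ s.re → F s ≠ 0) ∧
    ∀ Y : ℝ, X ≤ Y → ∃ a : ℝ, 0 < a ∧ ∀ s : ℂ, s.re = Y → a ≤ ‖F s‖

theorem FF_nice {μ : Measure ℂ} {w : ℂ → ℂ} {R : ℝ} (hR : 0 ≤ R) (hg : Good μ w R) (P : Polynomial ℂ) :
    Nice (FF μ w P) R := by
  obtain ⟨a, ha⟩ := isD_poly P
  have hD := FF_series hg ha
  obtain ⟨C, hC0, hC⟩ := poly_bound P
  refine ⟨hR, fun s hs => FF_an hg P hs, ?_, hD.bdd, ?_⟩
  · obtain ⟨B, hB, hgr'⟩ := Pool.Agent.K7.H52.SP.growth 1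
    refine ⟨P.natDegree * B + 1, by positivity, fun W => ?_⟩
    obtain ⟨T1, hT1, hgr⟩ := hgr' (W + R)
    obtain ⟨T2, hT2, hab⟩ := Pool.Agent.K7.H52.SP.absorb (tm μ w * (C * 2 ^ P.natDegree)) one_pos
    refine ⟨max T1 T2, hT1.trans (le_max_left _ _), fun T hT s hs1 hs2 => ?_⟩
    have hTa := (le_max_left _ _).trans hT
    have hTb := (le_max_right _ _).trans hT
    have hL : 0 ≤ Real.log T := Real.log_nonneg (by linarith)
    have h1 := FF_le hg hC hC0 (s := s) (M := Real.exp (B * Real.log T)) (by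
      intro z hz1 hz2
      refine hgr T hTa (s + z) (by rw [add_re]; linarith) ?_
      have h2 := (Complex.abs_im_le_norm z).trans hz2
      rw [add_im, show s.im + z.im - T = (s.im - T) + z.im by ring]
      exact (abs_add_le _ _).trans (add_le_add hs2 h2))
    have h3 : 1 ≤ Real.exp (B * Real.log T) := Real.one_le_exp (by positivity)
    have htm := tm_nonneg μ w
    calc ‖FF μ w P s‖ ≤ tm μ w * (C * (1 + Real.exp (B * Real.log T)) ^ P.natDegree) := h1
      _ ≤ tm μ w * (C * (2 * Real.exp (B * Real.log T)) ^ P.natDegree) := by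
          gcongr
          linarith
      _ = (tm μ w * (C * 2 ^ P.natDegree)) * Real.exp (B * Real.log T) ^ P.natDegree := by
          rw [mul_pow]; ring
      _ ≤ Real.exp (1 * Real.log T) * Real.exp (B * Real.log T) ^ P.natDegree := by
          gcongr
          exact hab T hTb
      _ = _ := by
          rw [← Real.exp_nat_mul, ← Real.exp_add]; congr 1; ring
  · by_cases hex : ∃ n : ℕ, 1 ≤ n ∧ a n * tr μ w (Real.log n) ≠ 0
    · exact Or.inr (far hD hex)
    · left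
      have hz := hD.zero_of hex
      intro s hs
      have hU : AnalyticOnNhd ℂ (FF μ w P) {z : ℂ | R < z.im} := fun z hz => FF_an hg P hz
      have hconv : IsPreconnected {z : ℂ | R < z.im} := (convex_halfSpace_im_gt R).isPreconnected
      have h0 : ((2 : ℝ) + ((R + 1 : ℝ) : ℂ) * I : ℂ) ∈ {z : ℂ | R < z.im} := by
        simp
      have hev : FF μ w P =ᶠ[𝓝 ((2 : ℝ) + ((R + 1 : ℝ) : ℂ) * I : ℂ)] 0 := by
        have hopen : IsOpen {z : ℂ | 1 < z.re} := isOpen_lt continuous_const continuous_re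
        filter_upwards [hopen.mem_nhds (show ((2 : ℝ) + ((R + 1 : ℝ) : ℂ) * I : ℂ) ∈ {z : ℂ | 1 < z.re} by simp)] with z hz'
        exact hz z hz'
      exact hU.eqOn_zero_of_preconnected_of_eventuallyEq_zero hconv h0 hev hs

end Pool.Agent.H60.ZA
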