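import Pool.Agent.H60.WM.Local

/-! The local inequality on the line `Re s = σ`. -/

set_option autoImplicit false

open Complex MeasureTheory Finset Filter Topology
open Pool.Agent.R747.TL Pool.Agent.TH804.SS Pool.Agent.H60.WM

namespace Pool.Agent.H60.ZA

/-- the average of `P(ζ)`, as a function of a complex variable -/
noncomputable def FF (μ : Measure ℂ) (w : ℂ → ℂ) (P : Polynomial ℂ) (s : ℂ) : ℂ :=
  ∫ z, w z * P.eval (riemannZeta (s + z)) ∂μ

/-- coefficients of the power of a section -/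
noncomputable def cs (k : ℕ) (σ T : ℝ) (n : Fin k → ℕ) : ℂ := ∏ i, ((n i : ℂ) + 1) ^ (-((σ : ℂ) + (T : ℂ) * I))

lemma cs_norm (k : ℕ) {σ : ℝ} (hσ : 0 ≤ σ) (T : ℝ) (n : Fin k → ℕ) : ‖cs k σ T n‖ ≤ 1 := by
  unfold cs
  rw [norm_prod]
  refine Finset.prod_le_one (fun _ _ => norm_nonneg _) fun i _ => ?_
  rw [term_norm]
  apply Real.rpow_le_one_of_one_le_of_nonpos (by linarith [(n i).cast_nonneg (α := ℝ)])
  simp; exact hσ

lemma sec_pow (k N : ℕ) (σ T : ℝ) (v : ℂ) :
    (sec N ((σ : ℂ) + (T : ℂ) * I + I * v)) ^ k = tp (ix k N) (cs k σ T) (ll k) v := by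
  have h1 : (sec N ((σ : ℂ) + (T : ℂ) * I + I * v)) ^ k =
      ∏ _i : Fin k, sec N ((σ : ℂ) + (T : ℂ) * I + I * v) := by
    rw [Finset.prod_const, Finset.card_univ, Fintype.card_fin]
  rw [h1]
  unfold sec tp ix
  rw [Finset.prod_univ_sum]
  refine Finset.sum_congr rfl fun p _ => ?_
  unfold cs ll
  have h2 : cexp (-(I * ((∑ i, Real.log ((p i : ℝ) + 1) : ℝ) : ℂ) * v)) =
      ∏ i, cexp (-(I * (Real.log ((p i : ℝ) + 1) : ℂ) * v)) := by
    rw [← Complex.exp_sum]
    congr 1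
    push_cast
    rw [Finset.mul_sum, Finset.sum_mul, Finset.sum_neg_distrib]
  rw [h2, ← Finset.prod_mul_distrib]
  refine Finset.prod_congr rfl fun i _ => ?_
  have h0 : ((p i : ℂ) + 1) ≠ 0 := n1_ne _
  have e : -((σ : ℂ) + (T : ℂ) * I + I * v) = -((σ : ℂ) + (T : ℂ) * I) + -(I * v) := by ring
  rw [e, Complex.cpow_add _ _ h0]
  congr 1
  rw [Complex.cpow_def_of_ne_zero h0]
  congr 1
  have : Complex.log ((p i : ℂ) + 1) = ((Real.log ((p i : ℝ) + 1) : ℝ) : ℂ) := by
    rw [Complex.ofReal_log (by positivity)]; push_cast; rfl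
  rw [this]; ring

lemma low_bound (k N : ℕ) {σ : ℝ} (hσ : 0 ≤ σ) (T : ℝ) (v : ℂ) (hv : v.im ≤ 0) (Y : ℝ) (hY : 1 ≤ Y) :
    ‖tp ((ix k N).filter fun n => ¬ Y < ∏ i, ((n i : ℝ) + 1)) (cs k σ T) (ll k) v‖ ≤ Y ^ k := by
  refine (tp_norm_im _ _ _ _ hv fun n _ => ll_nonneg k n).trans ?_
  unfold nb
  calc _ ≤ ∑ n ∈ ((ix k N).filter fun n => ¬ Y < ∏ i, ((n i : ℝ) + 1)), (1 : ℝ) :=
        Finset.sum_le_sum fun n _ => cs_norm k hσ T n
    _ = (((ix k N).filter fun n => ¬ Y < ∏ i, ((n i : ℝ) + 1)).card : ℝ) := by simp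
    _ ≤ ((ix k ⌊Y⌋₊).card : ℝ) := by
        have : ((ix k N).filter fun n => ¬ Y < ∏ i, ((n i : ℝ) + 1)) ⊆ ix k ⌊Y⌋₊ := by
          intro n hn
          rw [Finset.mem_filter, not_lt] at hn
          unfold ix
          rw [Fintype.mem_piFinset]
          intro i
          rw [Finset.mem_range, ← Nat.succ_le_iff, Nat.le_floor_iff (by linarith)]
          have h1 : ((n i : ℝ) + 1) ≤ ∏ i, ((n i : ℝ) + 1) := by
            have h0 : n i + 1 ≤ ∏ i, (n i + 1) :=
              Finset.single_le_prod' (f := fun i => n i + 1) (fun j _ => by omega) (Finset.mem_univ i)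
            exact_mod_cast h0
          push_cast
          linarith [hn.2]
        exact_mod_cast Finset.card_le_card this
    _ = (⌊Y⌋₊ : ℝ) ^ k := by unfold ix; simp
    _ ≤ Y ^ k := pow_le_pow_left₀ (Nat.cast_nonneg _) (Nat.floor_le (by linarith)) k

lemma zeta_contOn {s : ℂ} {R : ℝ} (ht : R < s.im) : ContinuousOn (fun z : ℂ => riemannZeta (s + z)) (KR R) := by
  intro z hz
  apply ContinuousAt.continuousWithinAt
  have h1 : 0 < (s + z).im := by
    have := Complex.abs_im_le_norm z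
    have h2 := neg_abs_le z.im
    rw [add_im]
    linarith [hz.2]
  exact ContinuousAt.comp (f := fun z : ℂ => s + z) (zdiff h1).continuousAt (by fun_prop)

theorem local_ineq {m : ℕ} {μ : Fin m → Measure ℂ} {w : Fin m → ℂ → ℂ} {R : ℝ} (hR : 0 ≤ R)
    (hμ : ∀ j, Good (μ j) (w j) R) (hS : Slow μ w) (P : Polynomial ℂ) (hP : 0 < P.natDegree)
    {η σ : ℝ} (hη : 0 < η) (hη1 : η ≤ 1 / 4) (hσ : 1 / 2 ≤ σ) :
    ∀ᶠ T : ℝ in atTop, ∀ H : ℝ, 0 ≤ H →
      (∀ j, ∀ u : ℝ, |u| ≤ T ^ (2 * η) → ‖FF (μ j) (w j) P ((σ : ℂ) + ((T + u : ℝ) : ℂ) * I)‖ ≤ H) →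
      (∀ s : ℂ, σ ≤ s.re → |s.im - T| ≤ T ^ (2 * η) + R → ‖riemannZeta s‖ ^ (P.natDegree - 1) ≤ H) →
      ‖riemannZeta ((σ : ℂ) + (T : ℂ) * I)‖ ^ P.natDegree ≤ T ^ ((P.natDegree + 2) * η) * (1 + H) := by
  obtain ⟨C, hC0, hC⟩ := poly_close P hP
  obtain ⟨C2, hC20, hC2⟩ := poly_close (Polynomial.X ^ P.natDegree) (by simpa using hP)
  set k := P.natDegree with hk
  set l := ‖P.leadingCoeff‖ with hl
  have hPne : P ≠ 0 := by rintro rfl; simp at hk; omega
  have hl0 : 0 < l := norm_pos_iff.2 (Polynomial.leadingCoeff_ne_zero.2 hPne)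
  set M := ∑ j, tm (μ j) (w j) with hM
  have hM0 : 0 ≤ M := Finset.sum_nonneg fun j _ => tm_nonneg _ _
  have hMj : ∀ j, tm (μ j) (w j) ≤ M := fun j =>
    Finset.single_le_sum (fun i _ => tm_nonneg (μ i) (w i)) (Finset.mem_univ j)
  have hk1 : (1 : ℝ) ≤ k := by exact_mod_cast hP
  have hwin : ∀ᶠ T : ℝ in atTop, T ^ (2 * η) + R ≤ T / 2 := by
    have h1 : ∀ᶠ T : ℝ in atTop, 4 ≤ T ^ (1 / 2 : ℝ) := ev_const (by norm_num)
    filter_upwards [h1, eventually_ge_atTop (4 * R), eventually_ge_atTop (1 : ℝ)] with T h2 h3 h4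
    have h5 : T ^ (2 * η) ≤ T ^ (1 / 2 : ℝ) := Real.rpow_le_rpow_of_exponent_le h4 (by linarith)
    have h6 : T ^ (1 / 2 : ℝ) * T ^ (1 / 2 : ℝ) = T := by
      rw [← Real.rpow_add (by linarith)]; norm_num
    nlinarith
  have hlogge : ∀ᶠ T : ℝ in atTop, 2 / η ≤ Real.log T := Real.tendsto_log_atTop.eventually_ge_atTop _
  filter_upwards [tp_main (ι := Fin k → ℕ) μ w hR hμ (A := 2 * k) hη, sec_close, slow_bound hS hP hη, hwin,
    ev_const (η := η) (K := 2 + l⁻¹ * (1 + M * C) + M + C2) hη,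
    eventually_ge_atTop (1 : ℝ), hlogge, eventually_ge_atTop (4 * R + 4 * σ + 4)] with T h1 h2 h3 h4 h5 hT1 hlogT hTR
  intro H hH hG hZ
  have hT0 : 0 < T := by linarith
  set N := ⌊T ^ 2⌋₊ with hN
  have hNT : (N : ℝ) ≤ T ^ 2 := Nat.floor_le (by positivity)
  set Y := T ^ η with hY
  have hY1 : 1 ≤ Y := Real.one_le_rpow hT1 hη.le
  have hlog : 0 ≤ Real.log T := Real.log_nonneg hT1
  set S := (ix k N).filter fun n => Y < ∏ i, ((n i : ℝ) + 1) with hSdef
  -- decomposition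
  have hdec : ∀ (x : ℝ) (z : ℂ), |x| ≤ T ^ (2 * η) → 0 ≤ z.re → ‖z‖ ≤ R →
      ‖tp S (cs k σ T) (ll k) (x + -(I * z)) - (P.leadingCoeff)⁻¹ *
        P.eval (riemannZeta ((σ : ℂ) + ((T + x : ℝ) : ℂ) * I + z))‖ ≤ l⁻¹ * (C * (1 + H)) + Y ^ k := by
    intro x z hx hz1 hz2
    have hs : (σ : ℂ) + (T : ℂ) * I + I * ((x : ℂ) + -(I * z)) = (σ : ℂ) + ((T + x : ℝ) : ℂ) * I + z := by
      push_cast
      linear_combination (-z) * I_sq
    set s : ℂ := (σ : ℂ) + ((T + x : ℝ) : ℂ) * I + z with hsdef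
    have hsre : s.re = σ + z.re := by rw [hsdef]; simp
    have hsim : s.im = T + x + z.im := by rw [hsdef]; simp
    have hzre := (le_abs_self z.re).trans (Complex.abs_re_le_norm z)
    have hzim := Complex.abs_im_le_norm z
    have him : |s.im - T| ≤ T ^ (2 * η) + R := by
      rw [hsim]
      have : T + x + z.im - T = x + z.im := by ring
      rw [this]
      exact (abs_add_le _ _).trans (add_le_add hx (hzim.trans hz2))
    have e1 := hC (riemannZeta s) (sec N s) (h2 s (by rw [hsre]; linarith) (by rw [hsre]; linarith) (him.trans h4))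
    rw [← hs, sec_pow, hs, tp_filter (ix k N) (cs k σ T) (ll k) _ (fun n => Y < ∏ i, ((n i : ℝ) + 1)), ← hSdef] at e1
    have e2 := low_bound k N (by linarith : 0 ≤ σ) T ((x : ℂ) + -(I * z)) (by simp; exact hz1) Y hY1
    set LW := tp ((ix k N).filter fun n => ¬ Y < ∏ i, ((n i : ℝ) + 1)) (cs k σ T) (ll k) ((x : ℂ) + -(I * z))
    have e3 : C * (1 + ‖riemannZeta s‖ ^ (k - 1)) ≤ C * (1 + H) := by
      have := hZ s (by rw [hsre]; linarith) him
      gcongr
    have hlc : P.leadingCoeff ≠ 0 := Polynomial.leadingCoeff_ne_zero.2 hPne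
    have e4 : tp S (cs k σ T) (ll k) (x + -(I * z)) - (P.leadingCoeff)⁻¹ * P.eval (riemannZeta s) =
        -((P.leadingCoeff)⁻¹ * (P.eval (riemannZeta s) - P.leadingCoeff *
          (tp S (cs k σ T) (ll k) (x + -(I * z)) + LW))) - LW := by
      field_simp; ring
    rw [e4]
    refine (norm_sub_le _ _).trans (add_le_add ?_ e2)
    rw [norm_neg, norm_mul, norm_inv]
    exact mul_le_mul_of_nonneg_left (e1.trans e3) (by positivity)
  set H' := l⁻¹ * H + M * (l⁻¹ * (C * (1 + H)) + Y ^ k) with hH'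
  have hH'0 : 0 ≤ H' := by positivity
  have hkey := h1 S (cs k σ T) (ll k) (η * Real.log T) (2 * k * Real.log T) H'
    (by rw [div_le_iff₀ hη] at hlogT; linarith) (by nlinarith) (by nlinarith)
    (by
      intro n hn
      rw [hSdef, Finset.mem_filter] at hn
      rw [ll_eq]
      constructor
      · rw [← Real.log_rpow hT0]
        exact Real.log_le_log (by positivity) hn.2.le
      · have e1 : ∏ i, ((n i : ℝ) + 1) ≤ (T ^ 2) ^ k := by
          calc ∏ i, ((n i : ℝ) + 1) ≤ ∏ _i : Fin k, T ^ 2 := by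
                refine Finset.prod_le_prod (fun i _ => by positivity) fun i _ => ?_
                have := hn.1
                unfold ix at this
                rw [Fintype.mem_piFinset] at this
                have h6 := Finset.mem_range.1 (this i)
                have h7 : ((n i : ℝ) + 1) ≤ N := by exact_mod_cast h6
                linarith
            _ = _ := by simp
        calc Real.log (∏ i, ((n i : ℝ) + 1)) ≤ Real.log ((T ^ 2) ^ k) :=
              Real.log_le_log (Finset.prod_pos fun i _ => by positivity) e1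
          _ = _ := by rw [Real.log_pow, Real.log_pow]; push_cast; ring)
    (by
      unfold nb
      calc _ ≤ ∑ n ∈ S, (1 : ℝ) := Finset.sum_le_sum fun n _ => cs_norm k (by linarith) T n
        _ = (S.card : ℝ) := by simp
        _ ≤ ((ix k N).card : ℝ) := by exact_mod_cast Finset.card_filter_le _ _
        _ = (N : ℝ) ^ k := by unfold ix; simp
        _ ≤ (T ^ 2) ^ k := pow_le_pow_left₀ (Nat.cast_nonneg _) hNT k
        _ = T ^ ((2 * k : ℝ)) := by
          rw [← pow_mul, ← Real.rpow_natCast]; push_cast; ring_nf)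
    h3 hH'0
    (by
      intro j x hx
      rw [mean_tp S _ _ (hμ j) fun n _ => ll_nonneg k n]
      have hTx : R < T + x := by
        have := abs_le.1 (hx.trans (by linarith : T ^ (2 * η) ≤ T / 2))
        linarith
      have hcont1 : Continuous fun z : ℂ => tp S (cs k σ T) (ll k) ((x : ℂ) + -(I * z)) :=
        (tp_cont S _ _).comp (by fun_prop)
      have hcont2 : ContinuousOn (fun z : ℂ => (P.leadingCoeff)⁻¹ *
          P.eval (riemannZeta ((σ : ℂ) + ((T + x : ℝ) : ℂ) * I + z))) (KR R) :=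
        continuousOn_const.mul (P.continuous.comp_continuousOn (zeta_contOn (s := (σ : ℂ) + ((T + x : ℝ) : ℂ) * I) (by simpa using hTx)))
      have e1 : ∫ z, w j z * tp S (cs k σ T) (ll k) ((x : ℂ) + -(I * z)) ∂(μ j) =
          (P.leadingCoeff)⁻¹ * FF (μ j) (w j) P ((σ : ℂ) + ((T + x : ℝ) : ℂ) * I) +
          ∫ z, w j z * (tp S (cs k σ T) (ll k) ((x : ℂ) + -(I * z)) - (P.leadingCoeff)⁻¹ *
            P.eval (riemannZeta ((σ : ℂ) + ((T + x : ℝ) : ℂ) * I + z))) ∂(μ j) := by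
        unfold FF
        rw [← integral_const_mul, ← integral_add]
        · refine integral_congr_ae (Filter.Eventually.of_forall fun v => ?_)
          simp only
          ring
        · have := (hμ j).int_cont hcont2
          refine this.congr (Filter.Eventually.of_forall fun v => ?_)
          simp only
          ring
        · exact (hμ j).int_cont (hcont1.continuousOn.sub hcont2)
      rw [e1]
      refine (norm_add_le _ _).trans ?_
      rw [hH']
      refine add_le_add ?_ ?_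
      · rw [norm_mul, norm_inv]
        exact mul_le_mul_of_nonneg_left (hG j x hx) (by positivity)
      · have e2 : ‖∫ z, w j z * (tp S (cs k σ T) (ll k) ((x : ℂ) + -(I * z)) - (P.leadingCoeff)⁻¹ *
            P.eval (riemannZeta ((σ : ℂ) + ((T + x : ℝ) : ℂ) * I + z))) ∂(μ j)‖ ≤
            ∫ z, ‖w j z‖ * (l⁻¹ * (C * (1 + H)) + Y ^ k) ∂(μ j) := by
          refine norm_integral_le_of_norm_le ((hμ j).int.norm.mul_const _) ?_
          filter_upwards [(hμ j).supp] with z hz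
          rw [norm_mul]
          exact mul_le_mul_of_nonneg_left (hdec x z hx hz.1 hz.2) (norm_nonneg _)
        refine e2.trans ?_
        rw [integral_mul_const]
        exact mul_le_mul_of_nonneg_right (hMj j) (by positivity))
  -- final estimate
  have e0 : ∑ n ∈ S, cs k σ T n = tp S (cs k σ T) (ll k) 0 := by
    unfold tp; simp
  have hs0 : (σ : ℂ) + (T : ℂ) * I + I * 0 = (σ : ℂ) + (T : ℂ) * I := by ring
  have hre0 : ((σ : ℂ) + (T : ℂ) * I).re = σ := by simp
  have him0 : ((σ : ℂ) + (T : ℂ) * I).im = T := by simp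
  have e1 := hC2 (riemannZeta ((σ : ℂ) + (T : ℂ) * I)) (sec N ((σ : ℂ) + (T : ℂ) * I)) (by
    have := h2 ((σ : ℂ) + (T : ℂ) * I) (by rw [hre0]; exact hσ) (by rw [hre0]; linarith)
      (by rw [him0, sub_self, abs_zero]; linarith)
    exact this)
  rw [Polynomial.leadingCoeff_X_pow, Polynomial.natDegree_X_pow, Polynomial.eval_pow, Polynomial.eval_X,
    one_mul, ← hs0, sec_pow, tp_filter (ix k N) (cs k σ T) (ll k) 0 (fun n => Y < ∏ i, ((n i : ℝ) + 1)), ← hSdef, hs0] at e1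
  have e2 := low_bound k N (by linarith : 0 ≤ σ) T 0 (by simp) Y hY1
  set LW := tp ((ix k N).filter fun n => ¬ Y < ∏ i, ((n i : ℝ) + 1)) (cs k σ T) (ll k) 0
  have e3 : ‖riemannZeta ((σ : ℂ) + (T : ℂ) * I)‖ ^ (k - 1) ≤ H := by
    exact hZ ((σ : ℂ) + (T : ℂ) * I) (by rw [hre0]) (by rw [him0, sub_self, abs_zero]; positivity)
  have e4 : ‖riemannZeta ((σ : ℂ) + (T : ℂ) * I)‖ ^ k ≤ Y * (1 + H') + Y ^ k + C2 * (1 + H) := by
    calc ‖riemannZeta ((σ : ℂ) + (T : ℂ) * I)‖ ^ k = ‖(riemannZeta ((σ : ℂ) + (T : ℂ) * I) ^ k - (tp S (cs k σ T) (ll k) 0 + LW)) + (∑ n ∈ S, cs k σ T n + LW)‖ := by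
          rw [← norm_pow, e0]; congr 1; ring
      _ ≤ C2 * (1 + H) + (Y * (1 + H') + Y ^ k) := by
          refine (norm_add_le _ _).trans (add_le_add (e1.trans ?_) ((norm_add_le _ _).trans (add_le_add hkey e2)))
          gcongr
      _ = _ := by ring
  refine e4.trans ?_
  have hYk1 : 1 ≤ Y ^ k := one_le_pow₀ hY1
  have hYk : Y ^ k * Y * Y = T ^ ((k + 2) * η) := by
    rw [hY, ← Real.rpow_natCast, ← Real.rpow_mul hT0.le, ← Real.rpow_add hT0, ← Real.rpow_add hT0]
    congr 1; ring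
  rw [← hYk]
  have hli : 0 ≤ l⁻¹ := by positivity
  have f1 : 1 + H' ≤ Y ^ k * (1 + H) * (1 + l⁻¹ * (1 + M * C) + M) := by
    rw [hH']
    have g0 : 1 ≤ Y ^ k * (1 + H) := one_le_mul_of_one_le_of_one_le hYk1 (by linarith)
    have g1 : l⁻¹ * H ≤ l⁻¹ * (Y ^ k * (1 + H)) := by
      gcongr; nlinarith
    have g2 : M * (l⁻¹ * (C * (1 + H))) ≤ M * (l⁻¹ * (C * (Y ^ k * (1 + H)))) := by
      gcongr; nlinarith
    have g3 : M * Y ^ k ≤ M * (Y ^ k * (1 + H)) := by
      gcongr; nlinarith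
    calc 1 + (l⁻¹ * H + M * (l⁻¹ * (C * (1 + H)) + Y ^ k)) =
          1 + l⁻¹ * H + M * (l⁻¹ * (C * (1 + H))) + M * Y ^ k := by ring
      _ ≤ Y ^ k * (1 + H) + l⁻¹ * (Y ^ k * (1 + H)) + M * (l⁻¹ * (C * (Y ^ k * (1 + H)))) +
          M * (Y ^ k * (1 + H)) := by linarith
      _ = _ := by ring
  have f2 : Y ^ k ≤ Y ^ k * Y * (1 + H) := by
    have : Y ^ k * 1 ≤ Y ^ k * (Y * (1 + H)) := by
      refine mul_le_mul_of_nonneg_left ?_ (by positivity)
      exact one_le_mul_of_one_le_of_one_le hY1 (by linarith)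
    linarith
  have f3 : C2 * (1 + H) ≤ C2 * (Y ^ k * Y * (1 + H)) := by
    refine mul_le_mul_of_nonneg_left ?_ hC20
    have : 1 ≤ Y ^ k * Y := one_le_mul_of_one_le_of_one_le hYk1 hY1
    nlinarith
  calc Y * (1 + H') + Y ^ k + C2 * (1 + H)
      ≤ Y * (Y ^ k * (1 + H) * (1 + l⁻¹ * (1 + M * C) + M)) + Y ^ k * Y * (1 + H) + C2 * (Y ^ k * Y * (1 + H)) := by
        gcongr
    _ = (Y ^ k * Y * (1 + H)) * (2 + l⁻¹ * (1 + M * C) + M + C2) := by ring
    _ ≤ (Y ^ k * Y * (1 + H)) * Y := by gcongr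
    _ = _ := by ring

end Pool.Agent.H60.ZA
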