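import Pool.Agent.H60.ZA.Law
import Pool.Agent.H60.WM.Cor

/-! The criteria. -/

set_option autoImplicit false

open Complex MeasureTheory Filter Topology Metric Set
open Pool.Agent.R747.TL Pool.Agent.TH804.SS Pool.Agent.H60.WM
open Pool.Agent.K7.H52.SP
open H345 H345.Chi H370 H370.Loc

namespace Pool.Agent.H60.ZA

/-- at most `ε log T` zeros `s` of `F`, with multiplicity, with `Re s ≥ θ + δ` and `|Im s - T| ≤ 1` -/
def FewZ (F : ℂ → ℂ) (θ : ℝ) : Prop := ∀ δ ε : ℝ, 0 < δ → 0 < ε → ∃ T₀ : ℝ, ∀ T : ℝ, T₀ ≤ T →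
  ∀ S : Finset ℂ, (∀ s ∈ S, θ + δ ≤ s.re ∧ |s.im - T| ≤ 1) →
    ∑ s ∈ S, (analyticOrderNatAt F s : ℝ) ≤ ε * Real.log T

lemma FF_small {μ : Measure ℂ} {w : ℂ → ℂ} {R : ℝ} (hR : 0 ≤ R) (hg : Good μ w R) (P : Polynomial ℂ) {θ : ℝ}
    (H : ∀ ε W : ℝ, 0 < ε → 0 < W → ∃ T0 : ℝ, 3 ≤ T0 ∧ ∀ T : ℝ, T0 ≤ T → ∀ s : ℂ, θ ≤ s.re →
      |s.im - T| ≤ W → ‖riemannZeta s‖ ≤ Real.exp (ε * Real.log T)) :
    ∀ ε W : ℝ, 0 < ε → 0 < W → ∃ T0 : ℝ, 3 ≤ T0 ∧ ∀ T : ℝ, T0 ≤ T → ∀ s : ℂ, θ ≤ s.re →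
      |s.im - T| ≤ W → ‖FF μ w P s‖ ≤ Real.exp (ε * Real.log T) := by
  intro ε W hε hW
  obtain ⟨C, hC0, hC⟩ := poly_bound P
  have hk0 : (0 : ℝ) ≤ P.natDegree := Nat.cast_nonneg _
  obtain ⟨T1, hT1, h1⟩ := H (ε / (2 * (P.natDegree + 1))) (W + R) (by positivity) (by linarith)
  obtain ⟨T2, hT2, hab⟩ := absorb (tm μ w * (C * 2 ^ P.natDegree)) (show 0 < ε / 2 by positivity)
  refine ⟨max T1 T2, hT1.trans (le_max_left _ _), fun T hT s hs1 hs2 => ?_⟩
  have hTa := (le_max_left _ _).trans hT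
  have hTb := (le_max_right _ _).trans hT
  have hL : 0 ≤ Real.log T := Real.log_nonneg (by linarith)
  have h2 := FF_le hg hC hC0 (s := s) (M := Real.exp (ε / (2 * (P.natDegree + 1)) * Real.log T)) (by
    intro z hz1 hz2
    refine h1 T hTa (s + z) (by rw [add_re]; linarith) ?_
    have h2 := (Complex.abs_im_le_norm z).trans hz2
    rw [add_im, show s.im + z.im - T = (s.im - T) + z.im by ring]
    exact (abs_add_le _ _).trans (add_le_add hs2 h2))
  set E := Real.exp (ε / (2 * (P.natDegree + 1)) * Real.log T) with hE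
  have h3 : 1 ≤ E := Real.one_le_exp (by positivity)
  have htm := tm_nonneg μ w
  calc ‖FF μ w P s‖ ≤ tm μ w * (C * (1 + E) ^ P.natDegree) := h2
    _ ≤ tm μ w * (C * (2 * E) ^ P.natDegree) := by
        gcongr
        linarith
    _ = (tm μ w * (C * 2 ^ P.natDegree)) * E ^ P.natDegree := by
        rw [mul_pow]; ring
    _ ≤ Real.exp (ε / 2 * Real.log T) * Real.exp (ε / 2 * Real.log T) := by
        apply mul_le_mul (hab T hTb) _ (by positivity) (by positivity)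
        rw [hE, ← Real.exp_nat_mul]
        apply Real.exp_le_exp.2
        rw [← mul_assoc]
        refine mul_le_mul_of_nonneg_right ?_ hL
        rw [mul_div_assoc', div_le_iff₀ (by positivity)]
        nlinarith
    _ = _ := by
        rw [← Real.exp_add]; congr 1; ring

lemma few_mono {F : ℂ → ℂ} {θ : ℝ} (h : ∀ δ : ℝ, 0 < δ → ∃ θ' : ℝ, θ' < θ + δ ∧ FewZ F θ') : FewZ F θ := by
  intro δ ε hδ hε
  obtain ⟨θ', h1, h2⟩ := h δ hδ
  obtain ⟨T0, hT0⟩ := h2 (θ + δ - θ') ε (by linarith) hε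
  exact ⟨T0, fun T hT S hS => hT0 T hT S fun s hs => ⟨by linarith [(hS s hs).1], (hS s hs).2⟩⟩

theorem small_of_few {m : ℕ} {μ : Fin m → Measure ℂ} {w : Fin m → ℂ → ℂ} {R : ℝ} (hR : 0 ≤ R)
    (hμ : ∀ j, Good (μ j) (w j) R) (hS : Slow μ w) (P : Polynomial ℂ) (hP : 0 < P.natDegree)
    {θ : ℝ} (H : ∀ j, FewZ (FF (μ j) (w j) P) θ) {σ κ : ℝ} (hσ : 1 / 2 ≤ σ) (hσ1 : σ < 1)
    (hθσ : θ ≤ σ) (hκ : 0 < κ) : ∃ T₀ : ℝ, ∀ T : ℝ, T₀ ≤ T →
      ‖riemannZeta ((σ : ℂ) + (T : ℂ) * I)‖ ≤ T ^ κ := by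
  obtain ⟨δ, η, T₁, a1, a2, a3, hlaw⟩ := law hR hμ hS P hP (θ := σ) (κ := κ) (ε := 1 / 2) hσ hσ1 hκ
    (by norm_num)
  choose Tj hTj using fun j => H j (σ - θ + δ) (η / 2) (by linarith) (by positivity)
  refine ⟨max T₁ (2 * ∑ j, |Tj j| + 4), fun T hT => ?_⟩
  have hTa := (le_max_left _ _).trans hT
  have hTb := (le_max_right _ _).trans hT
  have hsum : ∀ j, |Tj j| ≤ ∑ j, |Tj j| := fun j =>
    Finset.single_le_sum (f := fun j => |Tj j|) (fun i _ => abs_nonneg _) (Finset.mem_univ j)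
  by_contra hcon
  push Not at hcon
  obtain ⟨j, T', h1, S, h2, h3⟩ := hlaw T hTa hcon.le
  have hnn : 0 ≤ ∑ j, |Tj j| := Finset.sum_nonneg fun i _ => abs_nonneg _
  have hT4 : 4 ≤ T := by linarith
  have hsq : T ^ (1 / 2 : ℝ) ≤ T / 2 := by
    have e1 : T ^ (1 / 2 : ℝ) * T ^ (1 / 2 : ℝ) = T := by
      rw [← Real.rpow_add (by linarith)]; norm_num
    have e2 : 2 ≤ T ^ (1 / 2 : ℝ) := by
      calc (2 : ℝ) = 4 ^ (1 / 2 : ℝ) := by
            rw [show (4 : ℝ) = 2 ^ (2 : ℝ) by norm_num, ← Real.rpow_mul (by norm_num)]; norm_num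
        _ ≤ _ := Real.rpow_le_rpow (by norm_num) hT4 (by norm_num)
    nlinarith
  have h1' := abs_le.1 h1
  have h4 := hTj j T' (by linarith [hsum j, le_abs_self (Tj j)]) S (fun s hs => ⟨by
    have := (h2 s hs).1
    linarith, (h2 s hs).2⟩)
  have h5 : Real.log T' ≤ 2 * Real.log T := by
    have h6 : Real.log T' ≤ Real.log (T ^ 2) := Real.log_le_log (by linarith) (by nlinarith)
    rw [Real.log_pow] at h6
    exact_mod_cast h6
  nlinarith

/-- the criterion to the right of `Re s = θ` -/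
theorem crit_right {m : ℕ} {μ : Fin m → Measure ℂ} {w : Fin m → ℂ → ℂ} {R : ℝ} (hR : 0 ≤ R)
    (hμ : ∀ j, Good (μ j) (w j) R) (hS : Slow μ w) (P : Polynomial ℂ) (hP : 0 < P.natDegree)
    {θ : ℝ} (hθ : 1 / 2 ≤ θ) (hθ1 : θ < 1) : SmallZ θ ↔ ∀ j, FewZ (FF (μ j) (w j) P) θ := by
  constructor
  · intro H j
    apply few_mono
    intro δ hδ
    set θ' : ℝ := θ + min (δ / 2) ((1 - θ) / 2) with hθ'
    have h1 : min (δ / 2) ((1 - θ) / 2) ≤ δ / 2 := min_le_left _ _
    have h2 : min (δ / 2) ((1 - θ) / 2) ≤ (1 - θ) / 2 := min_le_right _ _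
    have h3 : 0 < min (δ / 2) ((1 - θ) / 2) := lt_min (by positivity) (by linarith)
    refine ⟨θ', by linarith, ?_⟩
    have h4 := few_of_small (FF_nice hR (hμ j) P) (θ := θ') (by linarith) (by linarith)
      (FF_small hR (hμ j) P (θ := θ') (fun ε W hε hW => small_strip hθ hθ1 H (ϑ := θ') (by linarith) hε W hW.le))
    exact h4
  · intro H σ hσ hσ1 ε hε
    obtain ⟨T0, hT0⟩ := small_of_few hR hμ hS P hP H (σ := σ) (κ := ε) (by linarith) hσ1 hσ.le hε
    exact small_of_large hε hT0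

/-- the criterion for the Lindelöf hypothesis -/
theorem crit_line {m : ℕ} {μ : Fin m → Measure ℂ} {w : Fin m → ℂ → ℂ} {R : ℝ} (hR : 0 ≤ R)
    (hμ : ∀ j, Good (μ j) (w j) R) (hS : Slow μ w) (P : Polynomial ℂ) (hP : 0 < P.natDegree) :
    Exponent 0 ↔ ∀ j, FewZ (FF (μ j) (w j) P) (1 / 2) := by
  constructor
  · intro H j
    refine few_of_small (FF_nice hR (hμ j) P) (θ := 1 / 2) (by norm_num) (by norm_num)
      (FF_small hR (hμ j) P (θ := 1 / 2) ?_)
    intro ε W hε hW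
    obtain ⟨C, hC⟩ := H (ε / 8) (by positivity)
    obtain ⟨T2, hT2⟩ := ((ev_const (K := |C| * 2 ^ (0 + ε / 8)) (show 0 < ε / 8 by positivity)).and
      (eventually_ge_atTop (1 : ℝ))).exists_forall_of_atTop
    have hline : ∀ t : ℝ, T2 ≤ t → ‖zl t‖ ≤ t ^ (ε / 4) := by
      intro t ht
      obtain ⟨e1, e2⟩ := hT2 t ht
      calc ‖zl t‖ ≤ C * (1 + |t|) ^ (0 + ε / 8) := hC t
        _ ≤ |C| * (2 * t) ^ (0 + ε / 8) := by
            rw [abs_of_pos (by linarith : 0 < t)]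
            apply mul_le_mul (le_abs_self C) _ (by positivity) (abs_nonneg C)
            exact Real.rpow_le_rpow (by linarith) (by linarith) (by positivity)
        _ = (|C| * 2 ^ (0 + ε / 8)) * t ^ (ε / 8) := by
            rw [Real.mul_rpow (by norm_num) (by linarith), zero_add]; ring
        _ ≤ t ^ (ε / 8) * t ^ (ε / 8) := by gcongr
        _ = t ^ (ε / 4) := by rw [← Real.rpow_add (by linarith)]; congr 1; ring
    obtain ⟨C1, T3, hC1, h3⟩ := right_bound (a := ε / 4) (by positivity) hline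
    obtain ⟨T4, hT4, hab⟩ := absorb C1 (show 0 < ε / 2 by positivity)
    refine ⟨2 * |T3| + T4 + 2 * W + 3, by linarith [abs_nonneg T3], fun T hT s hs1 hs2 => ?_⟩
    have hs2' := abs_le.1 hs2
    have hT3 := abs_nonneg T3
    have h4 := h3 s.im (by linarith [le_abs_self T3]) s.re hs1
    have h5 : ((s.re : ℂ) + (s.im : ℂ) * I) = s := re_add_im s
    rw [h5] at h4
    have hTpos : 0 < T := by linarith
    rw [exp_mul_log hTpos]
    have h6 := hab T (by linarith)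
    rw [exp_mul_log hTpos] at h6
    calc ‖riemannZeta s‖ ≤ C1 * s.im ^ (ε / 4) := h4
      _ ≤ T ^ (ε / 2) * (T ^ (2 : ℝ)) ^ (ε / 4) := by
          apply mul_le_mul h6 _ (Real.rpow_nonneg (by linarith) _) (by positivity)
          apply Real.rpow_le_rpow (by linarith) _ (by positivity)
          rw [Real.rpow_two]; nlinarith
      _ = T ^ ε := by
          rw [← Real.rpow_mul hTpos.le, ← Real.rpow_add hTpos]; congr 1; ring
  · intro H
    apply exponent_of_large le_rfl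
    intro ε hε
    obtain ⟨T0, hT0⟩ := small_of_few hR hμ hS P hP H (σ := 1 / 2) (κ := ε) le_rfl (by norm_num) le_rfl hε
    refine ⟨1, T0, fun t ht => ?_⟩
    have := hT0 t ht
    unfold zl
    rw [zero_add, one_mul]
    push_cast at this
    exact this

/-- positive measures on a horizontal segment -/
lemma hor_data {μ : Measure ℝ} [IsFiniteMeasure μ] {X : ℝ} (hX : ∀ᵐ x ∂μ, 0 ≤ x ∧ x ≤ X)
    (h0 : ∀ δ : ℝ, 0 < δ → μ (Set.Iic δ) ≠ 0) (P : Polynomial ℂ) :
    ∃ (ν : Measure ℂ) (R : ℝ), 0 ≤ R ∧ Good ν (fun _ => 1) R ∧ Slow (fun _ : Fin 1 => ν) (fun _ _ => 1) ∧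
      FF ν (fun _ => 1) P = fun s => ∫ x, P.eval (riemannZeta (s + (x : ℂ))) ∂μ := by
  set ν : Measure ℂ := μ.map (fun x : ℝ => (x : ℂ)) with hν
  set R := max X 0 with hR
  have hR0 : 0 ≤ R := le_max_right _ _
  have hmeas : Measurable (fun x : ℝ => (x : ℂ)) := by fun_prop
  have hgood : Good ν (fun _ => 1) R := by
    refine ⟨Measure.isFiniteMeasure_map _ _, ?_, ?_⟩
    · have : IsFiniteMeasure ν := Measure.isFiniteMeasure_map _ _
      exact integrable_const 1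
    · have hms : MeasurableSet {z : ℂ | 0 ≤ z.re ∧ ‖z‖ ≤ R} := (KR_compact R).isClosed.measurableSet
      rw [hν, ae_map_iff hmeas.aemeasurable hms]
      filter_upwards [hX] with x hx
      refine ⟨by simpa using hx.1, ?_⟩
      rw [norm_real, Real.norm_eq_abs, abs_of_nonneg hx.1]
      exact hx.2.trans (le_max_left _ _)
  have hint : ∀ g : ℂ → ℂ, Measurable g → ∫ z, (1 : ℂ) * g z ∂ν = ∫ x, g (x : ℂ) ∂μ := by
    intro g hg
    have hsm : AEStronglyMeasurable (fun z => (1 : ℂ) * g z) (Measure.map (fun x : ℝ => (x : ℂ)) μ) :=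
      (measurable_const.mul hg).aestronglyMeasurable
    rw [hν, integral_map hmeas.aemeasurable hsm]
    simp
  have hzm : ∀ s : ℂ, Measurable (fun z : ℂ => P.eval (riemannZeta (s + z))) := by
    intro s
    have h1 : Measurable riemannZeta := by
      apply measurable_of_continuousOn_compl_singleton 1
      intro s hs
      exact (differentiableAt_riemannZeta hs).continuousAt.continuousWithinAt
    exact P.continuous.measurable.comp (h1.comp (by fun_prop))
  refine ⟨ν, R, hR0, hgood, ?_, ?_⟩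
  · intro ε hε
    have hδ : 0 < ε / 2 := by positivity
    set c := (μ (Set.Iic (ε / 2))).toReal with hc
    have hc0 : 0 < c := ENNReal.toReal_pos (h0 _ hδ) (measure_ne_top _ _)
    have hev : ∀ᶠ ξ : ℝ in atTop, Real.exp (-(ε / 2 * ξ)) ≤ c := by
      have h1 : Tendsto (fun ξ : ℝ => Real.exp (-(ε / 2 * ξ))) atTop (𝓝 0) :=
        Real.tendsto_exp_neg_atTop_nhds_zero.comp (tendsto_id.const_mul_atTop hδ)
      exact h1.eventually_le_const hc0
    obtain ⟨Λ, hΛ⟩ := eventually_atTop.1 (hev.and (eventually_ge_atTop (0 : ℝ)))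
    refine ⟨Λ, fun ξ hξ => ?_⟩
    obtain ⟨h1, h2⟩ := hΛ ξ hξ
    rw [Fin.sum_univ_one]
    unfold tr
    rw [hint _ (by fun_prop)]
    have e1 : ∫ x : ℝ, cexp (-((ξ : ℂ) * (x : ℂ))) ∂μ = ((∫ x : ℝ, Real.exp (-(ξ * x)) ∂μ : ℝ) : ℂ) := by
      rw [← integral_complex_ofReal]
      refine integral_congr_ae (Filter.Eventually.of_forall fun x => ?_)
      simp only
      push_cast
      rfl
    have hnn : 0 ≤ ∫ x : ℝ, Real.exp (-(ξ * x)) ∂μ := integral_nonneg fun x => (Real.exp_pos _).le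
    rw [e1, norm_real, Real.norm_eq_abs, abs_of_nonneg hnn]
    have hi : Integrable (fun x : ℝ => Real.exp (-(ξ * x))) μ := by
      refine (integrable_const (1 : ℝ)).mono' (by fun_prop) ?_
      filter_upwards [hX] with x hx
      rw [Real.norm_eq_abs, abs_of_pos (Real.exp_pos _), Real.exp_le_one_iff]
      nlinarith [hx.1]
    calc Real.exp (-(ε * ξ)) = Real.exp (-(ε / 2 * ξ)) * Real.exp (-(ε / 2 * ξ)) := by
          rw [← Real.exp_add]; congr 1; ring
      _ ≤ c * Real.exp (-(ε / 2 * ξ)) := mul_le_mul_of_nonneg_right h1 (Real.exp_pos _).le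
      _ = ∫ x in Set.Iic (ε / 2), Real.exp (-(ε / 2 * ξ)) ∂μ := by
          rw [setIntegral_const, smul_eq_mul, hc, Measure.real]
      _ ≤ ∫ x in Set.Iic (ε / 2), Real.exp (-(ξ * x)) ∂μ := by
          refine setIntegral_mono_on (integrable_const _).integrableOn hi.integrableOn measurableSet_Iic
            fun x hx => ?_
          apply Real.exp_le_exp.2
          have : x ≤ ε / 2 := hx
          nlinarith
      _ ≤ ∫ x : ℝ, Real.exp (-(ξ * x)) ∂μ :=
          setIntegral_le_integral hi (Filter.Eventually.of_forall fun x => (Real.exp_pos _).le)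
  · funext s
    unfold FF
    exact hint _ (hzm s)

end Pool.Agent.H60.ZA
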