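import Pool.Agent.H60.ZA.Rs
import Pool.Agent.H60.ME.Int
import Pool.Graph.R_pool_sql_team_seeded_620a6dc7.Helper156_SP.Der11

/-! Windows with many zeros are rare. -/

set_option autoImplicit false

open Complex MeasureTheory Filter Topology Metric Set
open Pool.Agent.R747.TL Pool.Agent.TH804.SS Pool.Agent.H60.WM
open Pool.Agent.K7.H52.SP
open H345 H345.Chi H370 H370.Loc

namespace Pool.Agent.H60.ZA

/-- small values in a window imply few zeros there, with explicit dependence -/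
theorem few_local {F : ℂ → ℂ} {R0 : ℝ} (hF : Nice F R0) :
    ∃ c W : ℝ, 0 < c ∧ 0 < W ∧ ∀ δ κ : ℝ, 0 < δ → δ ≤ 1 → 0 < κ → ∃ T₀ : ℝ, 3 ≤ T₀ ∧ ∀ T : ℝ, T₀ ≤ T →
      (∀ s : ℂ, 1 / 2 ≤ s.re → |s.im - T| ≤ W → ‖F s‖ ≤ Real.exp (κ * Real.log T)) →
      ∀ S : Finset ℂ, (∀ s ∈ S, 1 / 2 + δ ≤ s.re ∧ |s.im - T| ≤ 1) →
        ∑ s ∈ S, (mult F s : ℝ) ≤ c * κ / δ ^ 2 * Real.log T := by
  classical
  have hR0 := hF.R0
  rcases hF.alt with h0 | ⟨X, hX2, hXne, hXlow⟩
  · refine ⟨1, 1, one_pos, one_pos, fun δ κ hδ hδ1 hκ => ⟨4 + R0, by linarith, fun T hT _ S hS => ?_⟩⟩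
    have h1 : ∑ s ∈ S, (mult F s : ℝ) = 0 := by
      refine Finset.sum_eq_zero fun s hs => ?_
      have him := abs_le.1 (hS s hs).2
      have hev : F =ᶠ[𝓝 s] 0 := by
        have hopen : IsOpen {z : ℂ | R0 < z.im} := isOpen_lt continuous_const continuous_im
        filter_upwards [hopen.mem_nhds (show s ∈ {z : ℂ | R0 < z.im} by simp only [Set.mem_ofPred_eq]; linarith)] with z hz
        exact h0 z hz
      have : analyticOrderAt F s = ⊤ := by
        rw [analyticOrderAt_eq_top]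
        exact hev
      unfold mult analyticOrderNatAt
      rw [this]
      simp
    rw [h1]
    have : 0 ≤ Real.log T := Real.log_nonneg (by linarith)
    positivity
  set Xc : ℝ := X + 1 with hXc
  obtain ⟨a, ha, halow⟩ := hXlow Xc (by linarith)
  refine ⟨40 * Xc, 1 + Xc, by linarith, by linarith, ?_⟩
  intro δ κ hδ hδ1 hκ
  set R : ℝ := Xc - 1 / 2 - δ / 4 with hR
  set r : ℝ := Xc - 1 / 2 - δ / 2 with hr
  have hr0 : 0 < r := by linarith
  have hrR : r < R := by linarith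
  have hlogpos : 0 < Real.log (R / r) := Real.log_pos (by rw [lt_div_iff₀ hr0]; linarith)
  set N : ℝ := (⌊2 * 1 / (δ / 2)⌋₊ : ℝ) + 1 with hN
  have hN0 : 0 < N := by positivity
  have hN1 : N ≤ 5 / δ := by
    have h1 : (⌊2 * 1 / (δ / 2)⌋₊ : ℝ) ≤ 2 * 1 / (δ / 2) := Nat.floor_le (by positivity)
    have h2 : 2 * 1 / (δ / 2) = 4 / δ := by field_simp; ring
    have h3 : 1 ≤ 1 / δ := by rw [le_div_iff₀ hδ]; linarith
    have h4 : 5 / δ = 4 / δ + 1 / δ := by ring
    rw [hN, h4]; linarith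
  have hlog1 : δ / (4 * Xc) ≤ Real.log (R / r) := by
    have h1 : 0 < R / r := div_pos (by linarith) hr0
    have h2 := Real.one_sub_inv_le_log_of_pos h1
    refine le_trans ?_ h2
    have h3 : 1 - (R / r)⁻¹ = (R - r) / R := by
      have : R ≠ 0 := by linarith
      rw [inv_div]; field_simp
    rw [h3, show R - r = δ / 4 by rw [hR, hr]; ring, div_div]
    refine div_le_div_of_nonneg_left hδ.le (by linarith) (by linarith)
  obtain ⟨T₂, hT₂, hab⟩ := absorb (1 / a) hκ
  refine ⟨T₂ + R + R0 + 4, by linarith, ?_⟩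
  intro T hT hop S hS
  have hL0 : 0 < Real.log T := Real.log_pos (by linarith)
  set L := Real.log T with hL
  have hcov := cover (f := F) (T := T) (W := 1) (h := δ / 2) (b := 2 * κ * L / Real.log (R / r))
    (by positivity) zero_le_one S (fun s hs => (hS s hs).2) (by
      intro t ht S' hS' hS'2
      have htW := abs_le.1 ht
      set c : ℂ := ⟨Xc, t⟩ with hc
      -- discard the points far to the right
      set S'' : Finset ℂ := S'.filter (fun s => s.re < X) with hS''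
      have hsum : ∑ s ∈ S', (mult F s : ℝ) = ∑ s ∈ S'', (mult F s : ℝ) := by
        rw [hS'', Finset.sum_filter]
        refine Finset.sum_congr rfl fun s hs => ?_
        by_cases h : s.re < X
        · rw [if_pos h]
        · rw [if_neg h]
          push Not at h
          have him := abs_le.1 (hS s (hS' hs)).2
          rw [mult_zero (hF.an s (by linarith)) (hXne s h)]
          simp
      rw [hsum]
      have hwin : ∀ z ∈ closedBall c R, 1 / 2 ≤ z.re ∧ |z.im - T| ≤ 1 + Xc ∧ R0 < z.im := by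
        intro z hz
        obtain ⟨h1, h2, h3, h4⟩ := ball_coord hz
        simp only [hc] at h1 h2 h3 h4
        refine ⟨by linarith, abs_le.2 ⟨by linarith, by linarith⟩, by linarith⟩
      refine jn (R := R) (r := r) (η := κ) (L := L) (c := c) hr0 hrR (by positivity)
        (fun z hz => hF.an z (hwin z hz).2.2)
        (fun z hz => hop z (hwin z hz).1 (hwin z hz).2.1) ?_ S'' ?_
      · have h1 := halow c rfl
        have h2 : 1 / a ≤ Real.exp (κ * L) := hab T (by linarith)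
        rw [Real.exp_neg]
        refine le_trans ?_ h1
        rw [div_le_iff₀ ha] at h2
        rw [inv_le_comm₀ (Real.exp_pos _) ha]
        rw [inv_eq_one_div, div_le_iff₀ ha]
        exact h2
      · intro s hs
        rw [hS'', Finset.mem_filter] at hs
        obtain ⟨hs1, hs2⟩ := hs
        have h1 := (hS s (hS' hs1)).1
        have h2 := hS'2 s hs1
        rw [mem_closedBall, dist_eq_norm]
        refine (Complex.norm_le_abs_re_add_abs_im _).trans ?_
        have e1 : (s - c).re = s.re - Xc := by simp [hc]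
        have e2 : (s - c).im = s.im - t := by simp [hc]
        rw [e1, e2]
        have h3 : |s.re - Xc| ≤ Xc - 1 / 2 - δ := by
          rw [abs_le]
          constructor <;> linarith
        linarith)
  refine hcov.trans ?_
  have e : ((⌊2 * 1 / (δ / 2)⌋₊ : ℝ) + 1) = N := rfl
  rw [e]
  have hXc0 : 0 < Xc := by linarith
  calc N * (2 * κ * L / Real.log (R / r)) ≤ 5 / δ * (2 * κ * L / (δ / (4 * Xc))) := by gcongr
    _ = 40 * Xc * κ / δ ^ 2 * L := by field_simp; ring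

/-- the set of heights near which zeta is large somewhere to the right of the critical line is small -/
theorem exc_zeta {κ W : ℝ} (hκ : 0 < κ) (hκ1 : κ ≤ 1) (hW : 0 ≤ W) : ∃ X₀ : ℝ, 3 ≤ X₀ ∧ ∀ X : ℝ, X₀ ≤ X →
    volume {T : ℝ | (X ≤ T ∧ T ≤ 2 * X) ∧ ∃ s : ℂ, 1 / 2 ≤ s.re ∧ |s.im - T| ≤ W ∧
      Real.exp (κ * Real.log T) < ‖riemannZeta s‖} ≤ ENNReal.ofReal (X ^ (1 - 3 * κ)) := by
  set η : ℝ := κ / 100 with hη
  have hη0 : 0 < η := by positivity
  have hη1 : η ≤ 1 / 8 := by rw [hη]; linarith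
  obtain ⟨D, hD1, hkb⟩ := ME.kbound (k := 2) (by norm_num) hW (p := 4) (by norm_num) hη0 hη1
  obtain ⟨t₀, ht₀⟩ := eventually_atTop.1 hkb
  obtain ⟨C, hC, hmom⟩ := Pool.Agent.Helper156_SP.mom_upper_all (p := 4) (by norm_num) le_rfl
  obtain ⟨t₁, ht₁⟩ := eventually_atTop.1 hmom
  -- asymptotic inequalities
  have hev : ∀ᶠ X : ℝ in atTop, 1 + 8 * C * (2 * (2 * X) ^ (4 * η)) * Real.log (4 * X) ^ (4 : ℝ) ≤ X ^ (7 * η) := by
    obtain ⟨Y1, hY1, hab⟩ := absorb_log (C := 1) (k := 4) (ε := η / 4) (by positivity)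
    filter_upwards [ev_const (K := 1 + 16 * C * 2 ^ (4 * η) * 4 ^ (η / 4)) (show 0 < η by positivity),
      eventually_ge_atTop (max Y1 1)] with X h1 h2
    have hX1 : 1 ≤ X := (le_max_right _ _).trans h2
    have hXY : Y1 ≤ 4 * X := by linarith [(le_max_left Y1 1).trans h2]
    have hX0 : 0 < X := by linarith
    have h3 := hab (4 * X) hXY
    have e1 : Real.log (4 * X) ^ (4 : ℝ) = Real.log (4 * X) ^ 4 := by
      rw [show (4 : ℝ) = ((4 : ℕ) : ℝ) by norm_num, Real.rpow_natCast]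
    have e2 : Real.exp (η / 4 * Real.log (4 * X)) = 4 ^ (η / 4) * X ^ (η / 4) := by
      rw [mul_comm (η / 4), ← Real.rpow_def_of_pos (by positivity), Real.mul_rpow (by norm_num) hX0.le]
    have h4 : Real.log (4 * X) ^ (4 : ℝ) ≤ 4 ^ (η / 4) * X ^ (η / 4) := by
      rw [e1, ← e2]; linarith
    have e3 : (2 * X) ^ (4 * η) = 2 ^ (4 * η) * X ^ (4 * η) := Real.mul_rpow (by norm_num) hX0.le
    have h5 : 1 ≤ X ^ (6 * η) := Real.one_le_rpow hX1 (by positivity)
    have h6 : X ^ (4 * η) * X ^ (η / 4) ≤ X ^ (6 * η) := by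
      rw [← Real.rpow_add hX0]
      exact Real.rpow_le_rpow_of_exponent_le hX1 (by linarith)
    calc 1 + 8 * C * (2 * (2 * X) ^ (4 * η)) * Real.log (4 * X) ^ (4 : ℝ)
        ≤ 1 + 8 * C * (2 * (2 ^ (4 * η) * X ^ (4 * η))) * (4 ^ (η / 4) * X ^ (η / 4)) := by
          rw [e3]; gcongr
      _ = 1 + 16 * C * 2 ^ (4 * η) * 4 ^ (η / 4) * (X ^ (4 * η) * X ^ (η / 4)) := by ring
      _ ≤ X ^ (6 * η) + 16 * C * 2 ^ (4 * η) * 4 ^ (η / 4) * X ^ (6 * η) := by gcongr
      _ = (1 + 16 * C * 2 ^ (4 * η) * 4 ^ (η / 4)) * X ^ (6 * η) := by ring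
      _ ≤ X ^ η * X ^ (6 * η) := by gcongr
      _ = X ^ (7 * η) := by rw [← Real.rpow_add hX0]; congr 1; ring
  have hV2 : ∀ᶠ X : ℝ in atTop, 2 * (2 * X) ^ (4 * η) ≤ X := by
    filter_upwards [ev_const (K := 2 * 2 ^ (4 * η)) (show 0 < 1 - 4 * η by linarith), eventually_ge_atTop (1 : ℝ)]
      with X h1 h2
    have hX0 : 0 < X := by linarith
    calc 2 * (2 * X) ^ (4 * η) = 2 * 2 ^ (4 * η) * X ^ (4 * η) := by
          rw [Real.mul_rpow (by norm_num) hX0.le]; ring
      _ ≤ X ^ (1 - 4 * η) * X ^ (4 * η) := by gcongr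
      _ = X := by rw [← Real.rpow_add hX0]; norm_num
  obtain ⟨X₀, hX₀⟩ := eventually_atTop.1 (hev.and (hV2.and (ev_const (K := D) (show 0 < η by positivity))))
  refine ⟨max (max X₀ 3) (max t₀ t₁), (le_max_right _ _).trans (le_max_left _ _), fun X hX => ?_⟩
  have hXa : X₀ ≤ X := ((le_max_left _ _).trans (le_max_left _ _)).trans hX
  have hXb : 3 ≤ X := ((le_max_right _ _).trans (le_max_left _ _)).trans hX
  have hXc : t₀ ≤ X := ((le_max_left _ _).trans (le_max_right _ _)).trans hX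
  have hXd : t₁ ≤ X := ((le_max_right _ _).trans (le_max_right _ _)).trans hX
  obtain ⟨h1, h2, h3⟩ := hX₀ X hXa
  have hX0 : 0 < X := by linarith
  have hX1 : 1 ≤ X := by linarith
  set V : ℝ := 2 * (2 * X) ^ (4 * η) with hV
  have hV0 : 0 ≤ V := by positivity
  set u : ℝ → ℝ := fun y => ‖zl y‖ ^ (4 : ℝ) with hu
  have huc : Continuous u := zl_cont.norm.rpow_const fun _ => Or.inr (by norm_num)
  have hu0 : ∀ x, 0 ≤ u x := fun x => by positivity
  set G : ℝ → ℝ := fun t => 1 + ∫ y in (t - V)..(t + V), u y with hG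
  have hGc : Continuous G := continuous_const.add (ME.W_cont huc V)
  have hG0 : ∀ t, 0 ≤ G t := fun t => by
    have : 0 ≤ ∫ y in (t - V)..(t + V), u y := intervalIntegral.integral_nonneg (by linarith) fun y _ => hu0 y
    simp only [hG]; linarith
  set lam : ℝ := X ^ (4 * κ - 28 * η) / D with hlam
  have hD0 : 0 < D := by linarith
  have hlam0 : 0 < lam := by positivity
  -- the set is contained in a superlevel set
  have hsub : {T : ℝ | (X ≤ T ∧ T ≤ 2 * X) ∧ ∃ s : ℂ, 1 / 2 ≤ s.re ∧ |s.im - T| ≤ W ∧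
      Real.exp (κ * Real.log T) < ‖riemannZeta s‖} ⊆ {t | lam ≤ G t} ∩ Set.Icc X (2 * X) := by
    rintro t ⟨⟨ht1, ht2⟩, s, hs1, hs2, hs3⟩
    refine ⟨?_, ht1, ht2⟩
    have htp : 0 < t := by linarith
    obtain ⟨K, hK0, hK1, hK2⟩ := ht₀ t (hXc.trans ht1)
    have h5 := hK1 s hs1 (hs2.trans (by have : 0 ≤ t ^ (2 * η) := by positivity
                                        linarith))
    have h6 : t ^ κ < K := by
      have e : ‖riemannZeta s‖ ^ (2 - 1) = ‖riemannZeta s‖ := by norm_num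
      rw [e] at h5
      rw [Real.rpow_def_of_pos htp, mul_comm]
      exact hs3.trans_le h5
    have h7 : t ^ (4 * κ) ≤ K ^ (4 : ℝ) := by
      rw [mul_comm, Real.rpow_mul htp.le]
      exact Real.rpow_le_rpow (by positivity) h6.le (by norm_num)
    have e1 : (((2 : ℕ) : ℝ) - 1) * 4 = 4 := by norm_num
    have e2 : ((((2 : ℕ) : ℝ) - 1) * 4 + 3) * (4 * η) = 28 * η := by push_cast; ring
    rw [e1] at hK2
    rw [show ((4 : ℝ) + 3) * (4 * η) = 28 * η by ring] at hK2
    have h8 : ∫ y in (-(2 * t ^ (4 * η)))..(2 * t ^ (4 * η)), ‖zl (t + y)‖ ^ (4 : ℝ) ≤ ∫ y in (t - V)..(t + V), u y := by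
      rw [intervalIntegral.integral_comp_add_left (fun y => ‖zl y‖ ^ (4 : ℝ)) t]
      have h9 : 2 * t ^ (4 * η) ≤ V := by
        rw [hV]
        have := Real.rpow_le_rpow htp.le ht2 (show 0 ≤ 4 * η by positivity)
        linarith
      have h10 : 0 ≤ t ^ (4 * η) := by positivity
      exact ME.int_mono_set huc hu0 (by linarith) (by linarith) (by linarith)
    have h11 : t ^ (4 * κ) ≤ D * t ^ (28 * η) * G t := by
      refine (h7.trans hK2).trans ?_
      simp only [hG]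
      gcongr
    have h12 : X ^ (4 * κ - 28 * η) ≤ D * G t := by
      have e3 : t ^ (4 * κ) = t ^ (28 * η) * t ^ (4 * κ - 28 * η) := by
        rw [← Real.rpow_add htp]; congr 1; ring
      have h13 : t ^ (4 * κ - 28 * η) ≤ D * G t := by
        rw [e3] at h11
        have h14 : 0 < t ^ (28 * η) := by positivity
        have h15 : t ^ (28 * η) * t ^ (4 * κ - 28 * η) ≤ t ^ (28 * η) * (D * G t) := by
          linarith [h11]
        exact le_of_mul_le_mul_left h15 h14
      exact (Real.rpow_le_rpow hX0.le ht1 (by rw [hη]; linarith)).trans h13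
    show lam ≤ G t
    rw [hlam, div_le_iff₀ hD0]
    linarith
  -- Markov
  set ν : Measure ℝ := volume.restrict (Set.Icc X (2 * X)) with hν
  have hmark := mul_meas_ge_le_integral_of_nonneg (μ := ν) (f := G) (Eventually.of_forall hG0)
    (hGc.continuousOn.integrableOn_compact isCompact_Icc) lam
  have hint : ∫ t, G t ∂ν ≤ X * X ^ (7 * η) := by
    have e1 : ∫ t, G t ∂ν = ∫ t in X..(2 * X), G t := by
      rw [hν, intervalIntegral.integral_of_le (by linarith), integral_Icc_eq_integral_Ioc]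
    rw [e1]
    have hcW : Continuous fun t : ℝ => ∫ y in (t - V)..(t + V), u y := ME.W_cont huc V
    have e2 : ∫ t in X..(2 * X), G t = X + ∫ t in X..(2 * X), (∫ y in (t - V)..(t + V), u y) := by
      simp only [hG]
      rw [intervalIntegral.integral_add (by simp) (hcW.intervalIntegrable _ _), intervalIntegral.integral_const,
        smul_eq_mul]
      ring
    rw [e2]
    have h4 := ME.window (a := X) (b := 2 * X) huc hu0 hV0
    have h5 : ∫ y in (X - V)..(2 * X + V), u y ≤ ∫ y in (0 : ℝ)..(4 * X), u y :=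
      ME.int_mono_set huc hu0 (by linarith) (by linarith) (by linarith)
    have h6 : ∫ y in (0 : ℝ)..(4 * X), u y ≤ C * (4 * X * Real.log (4 * X) ^ (4 : ℝ)) := by
      have h7 := ht₁ (4 * X) (by linarith)
      have e3 : ((4 : ℝ) ^ 2 / 4) = 4 := by norm_num
      rw [e3] at h7
      exact h7
    calc X + ∫ t in X..(2 * X), (∫ y in (t - V)..(t + V), u y)
        ≤ X + 2 * V * (C * (4 * X * Real.log (4 * X) ^ (4 : ℝ))) := by
          have := mul_le_mul_of_nonneg_left (h5.trans h6) (show 0 ≤ 2 * V by positivity)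
          linarith
      _ = X * (1 + 8 * C * V * Real.log (4 * X) ^ (4 : ℝ)) := by ring
      _ ≤ _ := mul_le_mul_of_nonneg_left h1 hX0.le
  have hreal : ν.real {t | lam ≤ G t} ≤ X ^ (1 - 3 * κ) := by
    have h4 : lam * ν.real {t | lam ≤ G t} ≤ X * X ^ (7 * η) := hmark.trans hint
    have h5 : ν.real {t | lam ≤ G t} ≤ X * X ^ (7 * η) / lam := by
      rw [le_div_iff₀ hlam0]; linarith
    refine h5.trans ?_
    rw [hlam, div_div_eq_mul_div, div_le_iff₀ (by positivity)]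
    calc X * X ^ (7 * η) * D ≤ X * X ^ (7 * η) * X ^ η := by gcongr
      _ = X ^ (1 + 8 * η) := by
          rw [mul_assoc, ← Real.rpow_add hX0]
          nth_rewrite 1 [← Real.rpow_one X]
          rw [← Real.rpow_add hX0]; ring_nf
      _ ≤ X ^ ((1 - 3 * κ) + (4 * κ - 28 * η)) :=
          Real.rpow_le_rpow_of_exponent_le hX1 (by rw [hη]; linarith)
      _ = _ := by rw [Real.rpow_add hX0]
  have hmeas : MeasurableSet {t | lam ≤ G t} := measurableSet_le measurable_const hGc.measurable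
  calc volume {T : ℝ | (X ≤ T ∧ T ≤ 2 * X) ∧ ∃ s : ℂ, 1 / 2 ≤ s.re ∧ |s.im - T| ≤ W ∧
      Real.exp (κ * Real.log T) < ‖riemannZeta s‖} ≤ volume ({t | lam ≤ G t} ∩ Set.Icc X (2 * X)) := measure_mono hsub
    _ = ν {t | lam ≤ G t} := by rw [hν, Measure.restrict_apply hmeas]
    _ = ENNReal.ofReal (ν.real {t | lam ≤ G t}) := by
        rw [ofReal_measureReal]
    _ ≤ _ := ENNReal.ofReal_le_ofReal hreal

/-- the averages are small where zeta is small -/
lemma FF_small_loc {μ : Measure ℂ} {w : ℂ → ℂ} {R : ℝ} (hg : Good μ w R) (P : Polynomial ℂ) {κ : ℝ} (hκ : 0 < κ)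
    (W : ℝ) : ∃ T₀ : ℝ, 3 ≤ T₀ ∧ ∀ T : ℝ, T₀ ≤ T →
      (∀ s : ℂ, 1 / 2 ≤ s.re → |s.im - T| ≤ W + R → ‖riemannZeta s‖ ≤ Real.exp (κ * Real.log T)) →
      ∀ s : ℂ, 1 / 2 ≤ s.re → |s.im - T| ≤ W → ‖FF μ w P s‖ ≤ Real.exp ((P.natDegree + 1) * κ * Real.log T) := by
  obtain ⟨C, hC0, hC⟩ := poly_bound P
  obtain ⟨T₀, hT₀, hab⟩ := absorb (tm μ w * (C * 2 ^ P.natDegree)) hκ
  refine ⟨T₀, hT₀, fun T hT hz s hs1 hs2 => ?_⟩
  have h1 := FF_le hg hC hC0 (s := s) (M := Real.exp (κ * Real.log T)) (by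
    intro z hz1 hz2
    refine hz (s + z) (by rw [add_re]; linarith) ?_
    have h2 := (Complex.abs_im_le_norm z).trans hz2
    rw [add_im, show s.im + z.im - T = (s.im - T) + z.im by ring]
    exact (abs_add_le _ _).trans (add_le_add hs2 h2))
  have hL : 0 ≤ Real.log T := Real.log_nonneg (by linarith)
  have h3 : 1 ≤ Real.exp (κ * Real.log T) := Real.one_le_exp (by positivity)
  have htm := tm_nonneg μ w
  calc ‖FF μ w P s‖ ≤ tm μ w * (C * (1 + Real.exp (κ * Real.log T)) ^ P.natDegree) := h1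
    _ ≤ tm μ w * (C * (2 * Real.exp (κ * Real.log T)) ^ P.natDegree) := by
        gcongr
        linarith
    _ = (tm μ w * (C * 2 ^ P.natDegree)) * Real.exp (κ * Real.log T) ^ P.natDegree := by
        rw [mul_pow]; ring
    _ ≤ Real.exp (κ * Real.log T) * Real.exp (κ * Real.log T) ^ P.natDegree := by
        gcongr
        exact hab T hT
    _ = _ := by
        rw [← Real.exp_nat_mul, ← Real.exp_add]; congr 1; ring

/-- windows with many zeros are rare -/
theorem exc {m : ℕ} {μ : Fin m → Measure ℂ} {w : Fin m → ℂ → ℂ} {R : ℝ} (hR : 0 ≤ R)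
    (hμ : ∀ j, Good (μ j) (w j) R) (P : Polynomial ℂ) :
    ∃ c : ℝ, 0 < c ∧ ∀ δ ε : ℝ, 0 < δ → δ ≤ 1 → 0 < ε → ε ≤ 1 → ∃ X₀ : ℝ, ∀ X : ℝ, X₀ ≤ X →
      volume {T : ℝ | (X ≤ T ∧ T ≤ 2 * X) ∧ ∃ (j : Fin m) (S : Finset ℂ),
        (∀ s ∈ S, 1 / 2 + δ ≤ s.re ∧ |s.im - T| ≤ 1) ∧
        ε * Real.log T < ∑ s ∈ S, (analyticOrderNatAt (FF (μ j) (w j) P) s : ℝ)} ≤
      ENNReal.ofReal (X ^ (1 - c * δ ^ 2 * ε)) := by
  have h := fun j => few_local (FF_nice hR (hμ j) P)
  choose c W hc hW hfew using h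
  set c₀ : ℝ := 1 + ∑ j, c j with hc₀
  have hcs : ∀ j, c j ≤ c₀ := fun j => by
    have := Finset.single_le_sum (f := c) (fun i _ => (hc i).le) (Finset.mem_univ j)
    rw [hc₀]; linarith
  have hc₀1 : 1 ≤ c₀ := by
    have : 0 ≤ ∑ j, c j := Finset.sum_nonneg fun j _ => (hc j).le
    rw [hc₀]; linarith
  set W₀ : ℝ := ∑ j, W j with hW₀
  have hWs : ∀ j, W j ≤ W₀ := fun j => Finset.single_le_sum (f := W) (fun i _ => (hW i).le) (Finset.mem_univ j)
  have hW₀0 : 0 ≤ W₀ := Finset.sum_nonneg fun j _ => (hW j).le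
  obtain ⟨k, hk⟩ : ∃ k : ℝ, k = (P.natDegree : ℝ) := ⟨_, rfl⟩
  have hk0 : 0 ≤ k := hk ▸ Nat.cast_nonneg _
  refine ⟨3 / (c₀ * (k + 1)), by positivity, fun δ ε hδ hδ1 hε hε1 => ?_⟩
  set κ : ℝ := ε * δ ^ 2 / c₀ with hκ
  have hκ0 : 0 < κ := by positivity
  have hκ1 : κ ≤ 1 := by
    rw [hκ, div_le_one (by linarith)]
    nlinarith
  set κ' : ℝ := κ / (k + 1) with hκ'
  have hκ'0 : 0 < κ' := by positivity
  have hκ'1 : κ' ≤ 1 := by
    rw [hκ', div_le_one (by linarith)]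
    linarith
  obtain ⟨X₁, hX₁, hexc⟩ := exc_zeta (W := W₀ + R) hκ'0 hκ'1 (by linarith)
  choose Ta hTa hfew' using fun j => hfew j δ κ hδ hδ1 hκ0
  choose Tb hTb hsm using fun j => FF_small_loc (hμ j) P hκ'0 (W j)
  have hTaS : ∀ j, Ta j ≤ ∑ j, Ta j := fun j =>
    Finset.single_le_sum (f := Ta) (fun i _ => by linarith [hTa i]) (Finset.mem_univ j)
  have hTbS : ∀ j, Tb j ≤ ∑ j, Tb j := fun j =>
    Finset.single_le_sum (f := Tb) (fun i _ => by linarith [hTb i]) (Finset.mem_univ j)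
  refine ⟨max X₁ (max (∑ j, Ta j) (∑ j, Tb j)), fun X hX => ?_⟩
  have hXa : X₁ ≤ X := (le_max_left _ _).trans hX
  have hXb : ∑ j, Ta j ≤ X := ((le_max_left _ _).trans (le_max_right _ _)).trans hX
  have hXc : ∑ j, Tb j ≤ X := ((le_max_right _ _).trans (le_max_right _ _)).trans hX
  have hfin := hexc X hXa
  have e1 : 1 - 3 / (c₀ * (k + 1)) * δ ^ 2 * ε = 1 - 3 * κ' := by
    rw [hκ', hκ]; field_simp
  rw [e1]
  refine (measure_mono ?_).trans hfin
  rintro T ⟨⟨hT1, hT2⟩, j, S, hS1, hS2⟩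
  refine ⟨⟨hT1, hT2⟩, ?_⟩
  by_contra hcon
  push Not at hcon
  have hTp : 3 ≤ T := by linarith
  have h1 := hsm j T (((hTbS j).trans hXc).trans hT1) (fun s hs1 hs2 => hcon s hs1 (hs2.trans (by linarith [hWs j])))
  have h2 := hfew' j T (((hTaS j).trans hXb).trans hT1) (fun s hs1 hs2 => by
    refine (h1 s hs1 hs2).trans (le_of_eq ?_)
    congr 1
    rw [hκ', ← hk]; field_simp) S hS1
  have hL : 0 ≤ Real.log T := Real.log_nonneg (by linarith)
  have h3 : c j * κ / δ ^ 2 * Real.log T ≤ ε * Real.log T := by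
    refine mul_le_mul_of_nonneg_right ?_ hL
    rw [hκ, div_le_iff₀ (by positivity)]
    calc c j * (ε * δ ^ 2 / c₀) = (c j / c₀) * (ε * δ ^ 2) := by ring
      _ ≤ 1 * (ε * δ ^ 2) := by
          refine mul_le_mul_of_nonneg_right ?_ (by positivity)
          rw [div_le_one (by linarith)]
          exact hcs j
      _ = ε * δ ^ 2 := one_mul _
  exact absurd hS2 (not_lt.2 (h2.trans h3))

end Pool.Agent.H60.ZA
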