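import Pool.Agent.H60.ZA.Rs

/-! The iteration. -/

set_option autoImplicit false

open Complex MeasureTheory Filter Topology Metric Set
open Pool.Agent.R747.TL Pool.Agent.TH804.SS Pool.Agent.H60.WM
open Pool.Agent.K7.H52.SP

namespace Pool.Agent.H60.ZA

/-- one step -/
theorem step {m : ℕ} {μ : Fin m → Measure ℂ} {w : Fin m → ℂ → ℂ} {R : ℝ} (hR : 0 ≤ R)
    (hμ : ∀ j, Good (μ j) (w j) R) (hS : Slow μ w) (P : Polynomial ℂ) (hP : 0 < P.natDegree)
    {η ϑ ε₁ a : ℝ} (hη : 0 < η) (hη1 : η ≤ 1 / 8) (hϑ : 1 / 2 ≤ ϑ) (hϑ1 : ϑ < 1) (hε₁ : 0 < ε₁) (ha : 0 ≤ a) :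
    ∀ᶠ T : ℝ in atTop, ∀ V : ℝ, T ^ (4 * η) ≤ V / 2 → V ≤ T / 2 →
      (∀ s : ℂ, ϑ ≤ s.re → |s.im - T| ≤ V → ‖riemannZeta s‖ ≤ T ^ a) →
      (∀ j, ∀ s : ℂ, ϑ ≤ s.re → |s.im - T| ≤ V → ‖FF (μ j) (w j) P s‖ ≤ T ^ ε₁) →
      ∀ s : ℂ, ϑ ≤ s.re → |s.im - T| ≤ V / 2 →
        ‖riemannZeta s‖ ≤ T ^ ((ε₁ + (P.natDegree - 1) * a) / P.natDegree + 6 * η) := by
  set k := P.natDegree with hk
  have hk1 : (1 : ℝ) ≤ k := by exact_mod_cast hP
  have hk0 : (0 : ℝ) < k := by linarith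
  set b : ℝ := ε₁ + (k - 1) * a with hb
  have hb0 : 0 < b := by
    have : 0 ≤ ((k : ℝ) - 1) * a := mul_nonneg (by linarith) ha
    linarith
  set α : ℝ := b / k + 5 * η with hα
  have hα0 : η ≤ α := by
    have : 0 ≤ b / k := by positivity
    linarith
  obtain ⟨T1, hT1⟩ := (local_ineq hR hμ hS P hP hη (by linarith) hϑ).exists_forall_of_atTop
  obtain ⟨Wl, hWl, hltl⟩ := ltl (a := ϑ) (b := 2) (α := α) (β := η) (B := a) (ε := η) (by linarith) ha hη
  obtain ⟨M, hM0, hM⟩ := H448R2.GC.X1.zeta_bdd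
  filter_upwards [eventually_ge_atTop (2 * T1), eventually_ge_atTop (4 : ℝ),
    ev_const (K := Wl + R + 2) (show 0 < 2 * η by linarith), ev_const (K := M) hη,
    ev_const (K := 2 * 2 ^ ((k + 2) * η)) (show 0 < 2 * η by linarith)] with T h1 h2 h3 h4 h5
  intro V hV1 hV2 hZ hF
  have hT0 : 0 < T := by linarith
  have hX : T ^ (4 * η) = T ^ (2 * η) * T ^ (2 * η) := by rw [← Real.rpow_add hT0]; ring_nf
  -- on the line
  have hline : ∀ t : ℝ, |t - T| ≤ V / 2 + Wl → ‖riemannZeta ((ϑ : ℂ) + (t : ℂ) * I)‖ ≤ T ^ α := by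
    intro t ht
    have ht' := abs_le.1 ht
    have hVpos : 0 < V := by
      have : 0 < T ^ (4 * η) := Real.rpow_pos_of_pos hT0 _
      linarith
    have hX0 : 0 < T ^ (2 * η) := Real.rpow_pos_of_pos hT0 _
    have hroom : Wl + 2 * T ^ (2 * η) + R ≤ T ^ (4 * η) := by
      rw [hX]
      nlinarith
    have ht2 : T / 2 ≤ t ∧ t ≤ 2 * T := by
      constructor <;> linarith
    have htpos : 0 < t := by linarith [ht2.1]
    have htw : t ^ (2 * η) ≤ 2 * T ^ (2 * η) := by
      calc t ^ (2 * η) ≤ (2 * T) ^ (2 * η) := Real.rpow_le_rpow htpos.le ht2.2 (by linarith)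
        _ = 2 ^ (2 * η) * T ^ (2 * η) := Real.mul_rpow (by norm_num) hT0.le
        _ ≤ 2 ^ (1 : ℝ) * T ^ (2 * η) := by
            gcongr
            · norm_num
            · linarith
        _ = _ := by norm_num
    have hmain := hT1 t (by linarith [ht2.1]) (T ^ b) (by positivity)
      (fun j u hu => by
        refine (hF j _ (by simp) ?_).trans (Real.rpow_le_rpow_of_exponent_le (by linarith) ?_)
        · have : ((ϑ : ℂ) + ((t + u : ℝ) : ℂ) * I).im = t + u := by simp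
          rw [this]
          have hu' := abs_le.1 hu
          rw [abs_le]; constructor <;> linarith
        · rw [hb]
          have : 0 ≤ ((k : ℝ) - 1) * a := mul_nonneg (by linarith) ha
          linarith)
      (fun s hs1 hs2 => by
        have hs2' := abs_le.1 hs2
        have h6 := hZ s hs1 (by rw [abs_le]; constructor <;> linarith)
        calc ‖riemannZeta s‖ ^ (k - 1) ≤ (T ^ a) ^ (k - 1) := pow_le_pow_left₀ (norm_nonneg _) h6 _
          _ = T ^ (((k : ℝ) - 1) * a) := by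
              rw [← Real.rpow_natCast, ← Real.rpow_mul hT0.le, Nat.cast_sub hP]
              congr 1; push_cast; ring
          _ ≤ T ^ b := Real.rpow_le_rpow_of_exponent_le (by linarith) (by rw [hb]; linarith))
    have hTb : 1 ≤ T ^ b := Real.one_le_rpow (by linarith) hb0.le
    have h7 : ‖riemannZeta ((ϑ : ℂ) + (t : ℂ) * I)‖ ^ k ≤ (T ^ α) ^ k := by
      calc ‖riemannZeta ((ϑ : ℂ) + (t : ℂ) * I)‖ ^ k ≤ t ^ (((k : ℝ) + 2) * η) * (1 + T ^ b) := hmain
        _ ≤ (2 ^ (((k : ℝ) + 2) * η) * T ^ (((k : ℝ) + 2) * η)) * (2 * T ^ b) := by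
            have h8 : t ^ (((k : ℝ) + 2) * η) ≤ 2 ^ (((k : ℝ) + 2) * η) * T ^ (((k : ℝ) + 2) * η) := by
              rw [← Real.mul_rpow (by norm_num) hT0.le]
              exact Real.rpow_le_rpow htpos.le ht2.2 (by positivity)
            exact mul_le_mul h8 (by linarith) (by positivity) (by positivity)
        _ = (2 * 2 ^ (((k : ℝ) + 2) * η)) * (T ^ (((k : ℝ) + 2) * η) * T ^ b) := by ring
        _ ≤ T ^ (2 * η) * (T ^ (((k : ℝ) + 2) * η) * T ^ b) := by gcongr
        _ = T ^ (2 * η + ((k + 2) * η + b)) := by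
            rw [← Real.rpow_add hT0, ← Real.rpow_add hT0]
        _ ≤ T ^ (α * k) := by
            apply Real.rpow_le_rpow_of_exponent_le (by linarith)
            have e9 : α * k = b + 5 * η * k := by rw [hα, add_mul, div_mul_cancel₀ _ hk0.ne']
            rw [e9]
            nlinarith
        _ = (T ^ α) ^ k := by rw [Real.rpow_mul hT0.le, Real.rpow_natCast]
    exact le_of_pow_le_pow_left₀ (by omega) (by positivity) h7
  intro s hs1 hs2
  have hexp : ∀ x : ℝ, Real.exp (x * Real.log T) = T ^ x := fun x => exp_mul_log hT0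
  have hfin : α + η = b / k + 6 * η := by rw [hα]; ring
  rw [← hfin]
  rcases le_total 2 s.re with h6 | h6
  · calc ‖riemannZeta s‖ ≤ M := hM s (by linarith)
      _ ≤ T ^ η := h4
      _ ≤ _ := Real.rpow_le_rpow_of_exponent_le (by linarith) (by linarith)
  · have hs2' := abs_le.1 hs2
    have hL : 0 ≤ Real.log T := Real.log_nonneg (by linarith)
    have hX0 : 0 < T ^ (2 * η) := Real.rpow_pos_of_pos hT0 _
    have hroom : Wl ≤ V / 2 := by
      rw [hX] at hV1
      nlinarith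
    have h7 := hltl (Real.log T) hL riemannZeta s.im
      (fun z _ _ hz => (zdiff (by
        have := abs_le.1 hz
        linarith)))
      (fun z hz1 _ hz => by
        rw [hexp]
        have := abs_le.1 hz
        exact hZ z hz1 (by rw [abs_le]; constructor <;> linarith))
      (fun z hz1 hz => by
        rw [hexp]
        have := abs_le.1 hz
        have hze : z = (ϑ : ℂ) + (z.im : ℂ) * I := by
          apply Complex.ext <;> simp [hz1]
        rw [hze]
        exact hline z.im (by rw [abs_le]; constructor <;> linarith))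
      (fun z hz1 _ => by
        rw [hexp]
        exact (hM z (by linarith)).trans h4) s hs1 h6 rfl
    rw [hexp] at h7
    refine h7.trans (Real.rpow_le_rpow_of_exponent_le (by linarith) ?_)
    have h8 : 0 ≤ (s.re - ϑ) / (2 - ϑ) := div_nonneg (by linarith) (by linarith)
    nlinarith

theorem iter {m : ℕ} {μ : Fin m → Measure ℂ} {w : Fin m → ℂ → ℂ} {R : ℝ} (hR : 0 ≤ R)
    (hμ : ∀ j, Good (μ j) (w j) R) (hS : Slow μ w) (P : Polynomial ℂ) (hP : 0 < P.natDegree)
    {η ϑ ε₁ : ℝ} (hη : 0 < η) (hη1 : η ≤ 1 / 8) (hϑ : 1 / 2 ≤ ϑ) (hϑ1 : ϑ < 1) (hε₁ : 0 < ε₁) (J : ℕ) :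
    ∀ᶠ T : ℝ in atTop, ∀ V : ℝ, T ^ (4 * η) ≤ V / 2 ^ J → V ≤ T / 2 →
      (∀ j, ∀ s : ℂ, ϑ ≤ s.re → |s.im - T| ≤ V → ‖FF (μ j) (w j) P s‖ ≤ T ^ ε₁) →
      ∀ s : ℂ, ϑ ≤ s.re → |s.im - T| ≤ V / 2 ^ J →
        ‖riemannZeta s‖ ≤ T ^ ((1 - 1 / (P.natDegree : ℝ)) ^ J * 2 + (ε₁ + 6 * P.natDegree * η)) := by
  set k := P.natDegree with hk
  have hk1 : (1 : ℝ) ≤ k := by exact_mod_cast hP
  have hk0 : (0 : ℝ) < k := by linarith
  have hq0 : 0 ≤ 1 - 1 / (k : ℝ) := by
    have : 1 / (k : ℝ) ≤ 1 := by rw [div_le_one hk0]; exact hk1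
    linarith
  induction J with
  | zero =>
    filter_upwards [eventually_ge_atTop (40 : ℝ)] with T hT
    intro V hV1 hV2 hF s hs1 hs2
    rw [pow_zero, div_one] at hs2
    have hs2' := abs_le.1 hs2
    have hpos : 0 < 6 * k * η := by positivity
    have hT2 : T ^ (2 : ℝ) ≤ T ^ ((1 - 1 / (k : ℝ)) ^ 0 * 2 + (ε₁ + 6 * k * η)) := by
      apply Real.rpow_le_rpow_of_exponent_le (by linarith)
      rw [pow_zero]; linarith
    refine le_trans ?_ hT2
    rw [Real.rpow_two]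
    rcases le_total 2 s.re with h | h
    · have h3 := Pool.Agent.W188.Ray.norm_zeta_le_two (s := s) h
      nlinarith
    · have h3 := Pool.Agent.H388LH.zeta_growth (s := s) (by linarith) (by linarith)
      have h4 := Complex.norm_le_abs_re_add_abs_im s
      rw [abs_of_pos (by linarith : 0 < s.re), abs_of_pos (by linarith : 0 < s.im)] at h4
      nlinarith
  | succ J ih =>
    filter_upwards [ih, step hR hμ hS P hP (η := η) (ϑ := ϑ) (ε₁ := ε₁)
      (a := (1 - 1 / (k : ℝ)) ^ J * 2 + (ε₁ + 6 * k * η)) hη hη1 hϑ hϑ1 hε₁ (by positivity),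
      eventually_ge_atTop (1 : ℝ)] with T h1 h2 hT1
    intro V hV1 hV2 hF s hs1 hs2
    have h2J : (0 : ℝ) < 2 ^ J := by positivity
    have e1 : V / 2 ^ (J + 1) = V / 2 ^ J / 2 := by rw [pow_succ, div_div]
    rw [e1] at hV1 hs2
    have hT0 : 0 < T ^ (4 * η) := Real.rpow_pos_of_pos (by linarith) _
    have hVJ : 0 < V / 2 ^ J := by linarith
    have hVle : V / 2 ^ J ≤ V := by
      have hV : 0 < V := by
        have := mul_pos hVJ h2J
        rwa [div_mul_cancel₀ _ h2J.ne'] at this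
      exact div_le_self hV.le (one_le_pow₀ (by norm_num))
    have h3 := h1 V (by linarith) hV2 hF
    have h4 := h2 (V / 2 ^ J) hV1 (by linarith) h3 (fun j s hs1 hs2 => hF j s hs1 (by linarith)) s hs1 hs2
    refine h4.trans (le_of_eq ?_)
    congr 1
    rw [← hk, pow_succ]
    field_simp
    ring

end Pool.Agent.H60.ZA
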