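import Pool.Agent.H60.ZA.It

/-! The law for large values. -/

set_option autoImplicit false

open Complex MeasureTheory Filter Topology Metric Set
open Pool.Agent.R747.TL Pool.Agent.TH804.SS Pool.Agent.H60.WM
open Pool.Agent.K7.H52.SP
open H345 H345.Chi H370 H370.Loc

namespace Pool.Agent.H60.ZA

theorem law {m : ℕ} {μ : Fin m → Measure ℂ} {w : Fin m → ℂ → ℂ} {R : ℝ} (hR : 0 ≤ R)
    (hμ : ∀ j, Good (μ j) (w j) R) (hS : Slow μ w) (P : Polynomial ℂ) (hP : 0 < P.natDegree)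
    {θ κ ε : ℝ} (hθ : 1 / 2 ≤ θ) (hθ1 : θ < 1) (hκ : 0 < κ) (hε : 0 < ε) :
    ∃ δ η T₀ : ℝ, 0 < δ ∧ 0 < η ∧ 3 ≤ T₀ ∧ ∀ T : ℝ, T₀ ≤ T → T ^ κ ≤ ‖riemannZeta ((θ : ℂ) + (T : ℂ) * I)‖ →
      ∃ (j : Fin m) (T' : ℝ), |T' - T| ≤ T ^ ε ∧ ∃ S : Finset ℂ,
        (∀ s ∈ S, θ + δ ≤ s.re ∧ |s.im - T'| ≤ 1) ∧
        η * Real.log T < ∑ s ∈ S, (analyticOrderNatAt (FF (μ j) (w j) P) s : ℝ) := by
  set k := P.natDegree with hk
  have hk1 : (1 : ℝ) ≤ k := by exact_mod_cast hP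
  have hk0 : (0 : ℝ) < k := by linarith
  obtain ⟨ϑ, ε₂, W₀, T₁, a1, a2, a3, a4, a5, hl⟩ := to_line hθ hθ1 hκ
  set ε' : ℝ := min ε (1 / 2) with hε'
  have hε'0 : 0 < ε' := lt_min hε (by norm_num)
  have hε'1 : ε' ≤ ε := min_le_left _ _
  have hε'2 : ε' ≤ 1 / 2 := min_le_right _ _
  set η₀ : ℝ := min (ε' / 8) (ε₂ / (24 * k)) with hη₀
  have hη₀0 : 0 < η₀ := lt_min (by positivity) (by positivity)
  have hη₀1 : η₀ ≤ ε' / 8 := min_le_left _ _
  have hη₀2 : η₀ ≤ ε₂ / (24 * k) := min_le_right _ _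
  have hη₀3 : 6 * k * η₀ ≤ ε₂ / 4 := by
    rw [le_div_iff₀ (by positivity)] at hη₀2
    linarith
  have hq0 : 0 ≤ 1 - 1 / (k : ℝ) := by
    have : 1 / (k : ℝ) ≤ 1 := by rw [div_le_one hk0]; exact hk1
    linarith
  have hq1 : 1 - 1 / (k : ℝ) < 1 := by
    have : 0 < 1 / (k : ℝ) := by positivity
    linarith
  obtain ⟨J, hJ⟩ := exists_pow_lt_of_lt_one (show 0 < ε₂ / 8 by positivity) hq1
  obtain ⟨δ₀, hδ₀⟩ : ∃ δ₀ : ℝ, δ₀ = min ((ϑ - θ) / 2) (1 / 4) := ⟨_, rfl⟩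
  have hδ₀0 : 0 < δ₀ := by rw [hδ₀]; exact lt_min (by linarith) (by norm_num)
  have hδ₀1 : δ₀ ≤ 1 / 4 := by rw [hδ₀]; exact min_le_right _ _
  have hδ₀2 : δ₀ ≤ (ϑ - θ) / 2 := by rw [hδ₀]; exact min_le_left _ _
  have hrs := fun j => rs (FF_nice hR (hμ j) P) (ϑ := ϑ) (δ := δ₀) (ε := ε₂ / 8) (W₀ := 0)
    (by linarith) a2.le hδ₀0 hδ₀1 (by positivity) le_rfl
  choose ηj Wj Tj b1 b2 b3 b4 using hrs
  set D : ℝ := 1 + ∑ j, 2 * (2 * Wj j + 1) / ηj j with hD
  have hDnn : ∀ j, 0 ≤ 2 * (2 * Wj j + 1) / ηj j := fun j =>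
    div_nonneg (by linarith [b2 j]) (b1 j).le
  have hD1 : 1 ≤ D := by
    rw [hD]
    have : 0 ≤ ∑ j, 2 * (2 * Wj j + 1) / ηj j := Finset.sum_nonneg fun j _ => hDnn j
    linarith
  have hDj : ∀ j, 2 * (2 * Wj j + 1) / ηj j ≤ D := fun j => by
    have := Finset.single_le_sum (fun i _ => hDnn i) (Finset.mem_univ j)
    rw [hD]; linarith
  have hTsum : ∀ j, Tj j ≤ ∑ j, Tj j := fun j =>
    Finset.single_le_sum (fun i _ => by linarith [b3 i]) (Finset.mem_univ j)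
  have hWsum : ∀ j, Wj j ≤ ∑ j, Wj j := fun j =>
    Finset.single_le_sum (fun i _ => b2 i) (Finset.mem_univ j)
  have hWs0 : 0 ≤ ∑ j, Wj j := Finset.sum_nonneg fun i _ => b2 i
  obtain ⟨T₂, hT₂⟩ := ((iter hR hμ hS P hP (η := η₀) (ϑ := ϑ) (ε₁ := ε₂ / 4) hη₀0 (by linarith) (by linarith) a2
    (by positivity) J).and ((ev_const (K := 2 ^ (J + 1)) (show 0 < ε' / 2 by positivity)).and
    ((ev_const (K := W₀) (show 0 < 4 * η₀ by positivity)).and ((ev_const (K := 2 * ∑ j, Wj j) hε'0).and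
    (ev_const (K := 2) (show 0 < 1 / 2 * (1 : ℝ) by norm_num)))))).exists_forall_of_atTop
  refine ⟨(ϑ - θ) / 2, 1 / D, max (max T₁ T₂) (max (2 * ∑ j, Tj j) 8), by linarith, by positivity,
    a5.trans ((le_max_left _ _).trans (le_max_left _ _)), ?_⟩
  intro T hT hbig
  have hTa : T₁ ≤ T := ((le_max_left _ _).trans (le_max_left _ _)).trans hT
  have hTb : T₂ ≤ T := ((le_max_right _ _).trans (le_max_left _ _)).trans hT
  have hTc : 2 * ∑ j, Tj j ≤ T := ((le_max_left _ _).trans (le_max_right _ _)).trans hT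
  have hTd : 8 ≤ T := ((le_max_right _ _).trans (le_max_right _ _)).trans hT
  obtain ⟨c1, c2, c3, c4, c5⟩ := hT₂ T hTb
  have hT0 : 0 < T := by linarith
  by_contra hcon
  push Not at hcon
  set V : ℝ := T ^ ε' / 2 with hV
  have hTε : T ^ ε' ≤ T := by
    calc T ^ ε' ≤ T ^ (1 : ℝ) := Real.rpow_le_rpow_of_exponent_le (by linarith) (by linarith)
      _ = T := Real.rpow_one T
  have hV0 : 0 < T ^ ε' := Real.rpow_pos_of_pos hT0 _
  have hVJ : T ^ (4 * η₀) ≤ V / 2 ^ J := by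
    have e1 : V / 2 ^ J = T ^ ε' / 2 ^ (J + 1) := by rw [hV, pow_succ']; field_simp
    rw [e1, le_div_iff₀ (by positivity)]
    calc T ^ (4 * η₀) * 2 ^ (J + 1) ≤ T ^ (ε' / 2) * T ^ (ε' / 2) := by
          apply mul_le_mul _ c2 (by positivity) (by positivity)
          exact Real.rpow_le_rpow_of_exponent_le (by linarith) (by linarith)
      _ = T ^ ε' := by rw [← Real.rpow_add hT0]; ring_nf
  have hFsmall : ∀ j, ∀ s : ℂ, ϑ ≤ s.re → |s.im - T| ≤ V →
      ‖FF (μ j) (w j) P s‖ ≤ T ^ (ε₂ / 4) := by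
    intro j s hs1 hs2
    have hs2' := abs_le.1 hs2
    set t := s.im with ht
    have ht1 : T / 2 ≤ t := by linarith
    have ht2 : t ≤ 2 * T := by linarith
    have ht3 : Tj j ≤ t := by linarith [hTsum j]
    have hlogt : 0 ≤ Real.log t := Real.log_nonneg (by linarith)
    have hlog1 : Real.log T ≤ 2 * Real.log t := by
      have h1 : Real.log T ≤ Real.log (t ^ 2) := Real.log_le_log hT0 (by nlinarith)
      rw [Real.log_pow] at h1
      exact_mod_cast h1
    have hlog2 : Real.log t ≤ 2 * Real.log T := by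
      have h1 : Real.log t ≤ Real.log (T ^ 2) := Real.log_le_log (by linarith) (by nlinarith)
      rw [Real.log_pow] at h1
      exact_mod_cast h1
    have h1 := b4 j t ht3 (by
      intro S hS1
      have hcov := cover (f := FF (μ j) (w j) P) (T := t) (W := Wj j) (h := 1) (b := 1 / D * Real.log T)
        one_pos (b2 j) S (fun s hs => (hS1 s hs).2) (by
          intro t' ht' S' hS' hS'2
          have ht'2 := abs_le.1 ht'
          have h2 := hcon j t' (by
            have h3 : T ^ ε' ≤ T ^ ε := Real.rpow_le_rpow_of_exponent_le (by linarith) hε'1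
            have h4 := hWsum j
            rw [abs_le]; constructor <;> linarith) S' (fun s hs => ⟨by
              have := (hS1 s (hS' hs)).1
              linarith, hS'2 s hs⟩)
          exact h2)
      refine hcov.trans ?_
      have h5 : (⌊2 * Wj j / 1⌋₊ : ℝ) ≤ 2 * Wj j := by
        rw [div_one]; exact Nat.floor_le (by linarith [b2 j])
      have hlT : 0 ≤ Real.log T := Real.log_nonneg (by linarith)
      have h6 : (2 * Wj j + 1) * (2 * (1 / D)) ≤ ηj j := by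
        have := hDj j
        rw [div_le_iff₀ (b1 j)] at this
        have hD0 : 0 < D := by linarith
        calc (2 * Wj j + 1) * (2 * (1 / D)) = (2 * (2 * Wj j + 1)) / D := by ring
          _ ≤ ηj j := by rw [div_le_iff₀ hD0]; linarith
      calc ((⌊2 * Wj j / 1⌋₊ : ℝ) + 1) * (1 / D * Real.log T)
          ≤ (2 * Wj j + 1) * (1 / D * (2 * Real.log t)) := by
            have : 0 < 1 / D := by positivity
            have h7 := b2 j
            gcongr
        _ = ((2 * Wj j + 1) * (2 * (1 / D))) * Real.log t := by ring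
        _ ≤ ηj j * Real.log t := by gcongr) s hs1 (by rw [ht]; simp)
    refine h1.trans ?_
    rw [← exp_mul_log hT0]
    apply Real.exp_le_exp.2
    nlinarith
  have hfin := c1 V hVJ (by linarith) hFsmall
  have hlast := hl T hTa (fun s hs1 hs2 => by
    have h1 := hfin s hs1.ge (hs2.trans (c3.trans hVJ))
    rw [exp_mul_log hT0]
    refine h1.trans (Real.rpow_le_rpow_of_exponent_le (by linarith) ?_)
    linarith) ((θ : ℂ) + (T : ℂ) * I) (by simp) (by simp)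
  linarith

end Pool.Agent.H60.ZA
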