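import Pool.Agent.H60.ZA.An

/-! Few zeros and small values. -/

set_option autoImplicit false

open Complex MeasureTheory Filter Topology Metric Set
open Pool.Agent.K7.H52.SP
open H345 H345.Chi H370 H370.Loc

namespace Pool.Agent.H60.ZA

/-- few zeros to the right imply small values -/
theorem rs {F : ℂ → ℂ} {R0 : ℝ} (hF : Nice F R0) {ϑ δ ε W₀ : ℝ} (hϑ : 1 / 4 ≤ ϑ) (hϑ1 : ϑ ≤ 1) (hδ : 0 < δ)
    (hδ1 : δ ≤ 1 / 4) (hε : 0 < ε) (hW₀ : 0 ≤ W₀) :
    ∃ η W T₀ : ℝ, 0 < η ∧ 0 ≤ W ∧ 3 ≤ T₀ ∧ ∀ T : ℝ, T₀ ≤ T →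
      (∀ S : Finset ℂ, (∀ s ∈ S, ϑ - δ ≤ s.re ∧ |s.im - T| ≤ W) →
        ∑ s ∈ S, (mult F s : ℝ) ≤ η * Real.log T) →
      ∀ s : ℂ, ϑ ≤ s.re → |s.im - T| ≤ W₀ → ‖F s‖ ≤ Real.exp (ε * Real.log T) := by
  obtain ⟨Cr, hCr, hr⟩ := hF.bd
  have hR0 := hF.R0
  rcases hF.alt with h0 | ⟨X, hX2, hXne, hXlow⟩
  · refine ⟨1, 1, 3 + R0 + W₀, one_pos, zero_le_one, by linarith, fun T hT _ s _ hs2 => ?_⟩
    have := abs_le.1 hs2
    rw [h0 s (by linarith), norm_zero]
    exact (Real.exp_pos _).le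
  set Xc : ℝ := X + 1 with hXc
  obtain ⟨a, ha, halow⟩ := hXlow Xc (by linarith)
  set R : ℝ := Xc - ϑ + 2 * δ with hR
  have hR1 : 1 ≤ R := by linarith
  obtain ⟨B, hB, hgr'⟩ := hF.gr
  obtain ⟨T₁, hT₁, hgr⟩ := hgr' (W₀ + R)
  obtain ⟨η, hη, L₀, hL₀, hbk⟩ := bk (R := R) (δ := δ) (l := 1 / 2) (B := B) (ε := ε)
    (by linarith) hδ (by norm_num) (by linarith) hB (by positivity)
  obtain ⟨T₂, hT₂, hab2⟩ := absorb (max Cr (1 / a)) hη
  obtain ⟨T₃, hT₃, hab3⟩ := absorb Cr hε
  refine ⟨η, W₀ + R, max (max T₁ T₂) (max (max T₃ (Real.exp L₀)) (W₀ + R + R0 + 2)), hη, by linarith,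
    hT₁.trans ((le_max_left _ _).trans (le_max_left _ _)), ?_⟩
  intro T hT hfew s hs1 hsW
  have hTa : T₁ ≤ T := ((le_max_left _ _).trans (le_max_left _ _)).trans hT
  have hTb : T₂ ≤ T := ((le_max_right _ _).trans (le_max_left _ _)).trans hT
  have hTc : T₃ ≤ T := ((le_max_left _ _).trans ((le_max_left _ _).trans (le_max_right _ _))).trans hT
  have hTd : Real.exp L₀ ≤ T :=
    ((le_max_right _ _).trans ((le_max_left _ _).trans (le_max_right _ _))).trans hT
  have hTe : W₀ + R + R0 + 2 ≤ T := ((le_max_right _ _).trans (le_max_right _ _)).trans hT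
  rcases le_total 2 s.re with hs2 | hs2
  · exact (hr s hs2).trans (hab3 T hTc)
  have hL : L₀ ≤ Real.log T := log_ge_of hTd
  set L := Real.log T with hLdef
  have hL0 : 0 < L := by linarith
  set t := s.im with ht
  have htW := abs_le.1 hsW
  set c : ℂ := ⟨Xc, t⟩ with hc
  have hwin : ∀ z ∈ closedBall c R, -1 ≤ z.re ∧ |z.im - T| ≤ W₀ + R ∧ R0 < z.im := by
    intro z hz
    obtain ⟨h1, h2, h3, h4⟩ := ball_coord hz
    simp only [hc] at h1 h2 h3 h4
    refine ⟨by linarith, abs_le.2 ⟨by linarith, by linarith⟩, by linarith⟩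
  have hab2' := hab2 T hTb
  have hop := hbk L hL F c (fun z hz => hF.an z (hwin z hz).2.2)
    (fun z hz => hgr T hTa z (hwin z hz).1 (hwin z hz).2.1)
    (by
      intro z hz
      obtain ⟨h1, h2, h3, h4⟩ := ball_coord hz
      simp only [hc] at h1
      refine ⟨hXne z (by linarith), ?_⟩
      exact (hr z (by linarith)).trans ((le_max_left _ _).trans hab2'))
    (by
      have h1 := halow c rfl
      have h2 : 1 / a ≤ Real.exp (η * L) := (le_max_right _ _).trans hab2'
      rw [Real.exp_neg]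
      refine le_trans ?_ h1
      rw [div_le_iff₀ ha] at h2
      rw [inv_le_comm₀ (Real.exp_pos _) ha]
      rw [inv_eq_one_div, div_le_iff₀ ha]
      exact h2)
    (by
      intro S hS
      refine hfew S fun z hz => ?_
      obtain ⟨h1, h2, h3, h4⟩ := ball_coord (hS z hz).1
      simp only [hc] at h1 h2 h3 h4
      refine ⟨by linarith, abs_le.2 ⟨by linarith, by linarith⟩⟩)
  -- horizontal segment
  refine hop s ?_
  rw [mem_closedBall, dist_eq_norm]
  have : s - c = ((s.re - Xc : ℝ) : ℂ) := by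
    apply Complex.ext <;> simp [hc, ht]
  rw [this, Complex.norm_real, Real.norm_eq_abs, abs_le]
  constructor <;> linarith

/-- small values imply few zeros -/
theorem few_of_small {F : ℂ → ℂ} {R0 : ℝ} (hF : Nice F R0) {θ : ℝ} (hθ : 1 / 4 ≤ θ) (hθ1 : θ < 1)
    (H : ∀ ε W : ℝ, 0 < ε → 0 < W → ∃ T0 : ℝ, 3 ≤ T0 ∧ ∀ T : ℝ, T0 ≤ T → ∀ s : ℂ, θ ≤ s.re →
      |s.im - T| ≤ W → ‖F s‖ ≤ Real.exp (ε * Real.log T)) :
    ∀ δ ε : ℝ, 0 < δ → 0 < ε → ∃ T₀ : ℝ, ∀ T : ℝ, T₀ ≤ T →
      ∀ S : Finset ℂ, (∀ s ∈ S, θ + δ ≤ s.re ∧ |s.im - T| ≤ 1) →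
        ∑ s ∈ S, (mult F s : ℝ) ≤ ε * Real.log T := by
  classical
  intro δ₀ ε hδ₀ hε
  have hR0 := hF.R0
  rcases hF.alt with h0 | ⟨X, hX2, hXne, hXlow⟩
  · refine ⟨4 + R0, fun T hT S hS => ?_⟩
    have h1 : ∑ s ∈ S, (mult F s : ℝ) = 0 := by
      refine Finset.sum_eq_zero fun s hs => ?_
      have him := abs_le.1 (hS s hs).2
      have hev : F =ᶠ[𝓝 s] 0 := by
        have hopen : IsOpen {z : ℂ | R0 < z.im} := isOpen_lt continuous_const continuous_im
        filter_upwards [hopen.mem_nhds (show s ∈ {z : ℂ | R0 < z.im} by simp only [Set.mem_setOf_eq]; linarith)] with z hz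
        exact h0 z hz
      have : analyticOrderAt F s = ⊤ := by
        rw [analyticOrderAt_eq_top]
        exact hev
      unfold mult analyticOrderNatAt
      rw [this]
      simp
    rw [h1]
    have : 0 ≤ Real.log T := Real.log_nonneg (by linarith)
    positivity
  set δ : ℝ := min δ₀ 1 with hδdef
  have hδ : 0 < δ := lt_min hδ₀ one_pos
  have hδ1 : δ ≤ 1 := min_le_right _ _
  have hδ2 : δ ≤ δ₀ := min_le_left _ _
  set Xc : ℝ := X + 1 with hXc
  obtain ⟨a, ha, halow⟩ := hXlow Xc (by linarith)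
  set R : ℝ := Xc - θ - δ / 4 with hR
  set r : ℝ := Xc - θ - δ / 2 with hr
  have hr0 : 0 < r := by linarith
  have hrR : r < R := by linarith
  have hlogpos : 0 < Real.log (R / r) := Real.log_pos (by rw [lt_div_iff₀ hr0]; linarith)
  set N : ℝ := (⌊2 * 1 / (δ / 2)⌋₊ : ℝ) + 1 with hN
  have hN0 : 0 < N := by positivity
  set η : ℝ := ε * Real.log (R / r) / (2 * N) with hη
  have hη0 : 0 < η := by positivity
  obtain ⟨T₁, hT₁, hop⟩ := H η (1 + R) hη0 (by linarith)
  obtain ⟨T₂, hT₂, hab⟩ := absorb (1 / a) hη0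
  refine ⟨T₁ + T₂ + R + R0 + 4, ?_⟩
  intro T hT S hS
  have hL0 : 0 < Real.log T := Real.log_pos (by linarith)
  set L := Real.log T with hL
  have hcov := cover (f := F) (T := T) (W := 1) (h := δ / 2) (b := 2 * η * L / Real.log (R / r))
    (by positivity) zero_le_one S (fun s hs => (hS s hs).2) (by
      intro t ht S' hS' hS'2
      have htW := abs_le.1 ht
      set c : ℂ := ⟨Xc, t⟩ with hc
      -- discard the points far to the right
      set S'' : Finset ℂ := S'.filter (fun s => s.re < X) with hS''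
      have hsum : ∑ s ∈ S', (mult F s : ℝ) = ∑ s ∈ S'', (mult F s : ℝ) := by
        rw [hS'', Finset.sum_filter]
        refine Finset.sum_congr rfl fun s hs => ?_
        by_cases h : s.re < X
        · rw [if_pos h]
        · rw [if_neg h]
          push Not at h
          have him := abs_le.1 (hS s (hS' hs)).2
          rw [mult_zero (hF.an s (by linarith)) (hXne s h)]
          simp
      rw [hsum]
      have hwin : ∀ z ∈ closedBall c R, θ ≤ z.re ∧ |z.im - T| ≤ 1 + R ∧ R0 < z.im := by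
        intro z hz
        obtain ⟨h1, h2, h3, h4⟩ := ball_coord hz
        simp only [hc] at h1 h2 h3 h4
        refine ⟨by linarith, abs_le.2 ⟨by linarith, by linarith⟩, by linarith⟩
      refine jn (R := R) (r := r) (η := η) (L := L) (c := c) hr0 hrR (by positivity)
        (fun z hz => hF.an z (hwin z hz).2.2)
        (fun z hz => hop T (by linarith) z (hwin z hz).1 (hwin z hz).2.1) ?_ S'' ?_
      · have h1 := halow c rfl
        have h2 : 1 / a ≤ Real.exp (η * L) := hab T (by linarith)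
        rw [Real.exp_neg]
        refine le_trans ?_ h1
        rw [div_le_iff₀ ha] at h2
        rw [inv_le_comm₀ (Real.exp_pos _) ha]
        rw [inv_eq_one_div, div_le_iff₀ ha]
        exact h2
      · intro s hs
        rw [hS'', Finset.mem_filter] at hs
        obtain ⟨hs1, hs2⟩ := hs
        have h1 := (hS s (hS' hs1)).1
        have h2 := hS'2 s hs1
        rw [mem_closedBall, dist_eq_norm]
        refine (Complex.norm_le_abs_re_add_abs_im _).trans ?_
        have e1 : (s - c).re = s.re - Xc := by simp [hc]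
        have e2 : (s - c).im = s.im - t := by simp [hc]
        rw [e1, e2]
        have h3 : |s.re - Xc| ≤ Xc - θ - δ := by
          rw [abs_le]
          constructor <;> linarith
        linarith)
  refine hcov.trans (le_of_eq ?_)
  have e : ((⌊2 * 1 / (δ / 2)⌋₊ : ℝ) + 1) = N := rfl
  rw [e, hη]
  field_simp

end Pool.Agent.H60.ZA
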