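import Pool.Agent.H60.ZA.Loc
import Pool.Graph.R_pool_sql_team_seeded_35f281b4.K7.H52.SP.Few

/-! The averages as Dirichlet series, and their size far to the right. -/

set_option autoImplicit false

open Complex MeasureTheory Finset Filter Topology
open Pool.Agent.R747.TL Pool.Agent.TH804.SS Pool.Agent.H60.WM

namespace Pool.Agent.H60.ZA

/-- `h` is given by a Dirichlet series in `Re s > 1` -/
def IsD (h : ℂ → ℂ) (a : ℕ → ℂ) : Prop := ∀ s : ℂ, 1 < s.re → LSeriesSummable a s ∧ h s = LSeries a s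

lemma isD_const (c : ℂ) : ∃ a, IsD (fun _ => c) a := by
  refine ⟨c • LSeries.delta, fun s _ => ?_⟩
  have h1 : LSeriesSummable LSeries.delta s := by
    have : (LSeries.term LSeries.delta s) = fun n => if n = 1 then (1 : ℂ) else 0 := by
      ext n
      rcases eq_or_ne n 0 with rfl | hn
      · simp
      · rw [LSeries.term_of_ne_zero hn, LSeries.delta]
        split_ifs with h
        · simp [h]
        · simp
    unfold LSeriesSummable
    rw [this]
    exact summable_of_ne_finset_zero (s := {1}) fun n hn => by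
      rw [if_neg (by simpa using hn)]
  refine ⟨h1.smul c, ?_⟩
  rw [LSeries_smul, LSeries_delta]
  simp

lemma isD_zeta : IsD riemannZeta 1 := fun s hs =>
  ⟨LSeriesSummable_one_iff.2 hs, (LSeries_one_eq_riemannZeta hs).symm⟩

lemma IsD.add {f g : ℂ → ℂ} {a b : ℕ → ℂ} (hf : IsD f a) (hg : IsD g b) : IsD (fun s => f s + g s) (a + b) :=
  fun s hs => ⟨(hf s hs).1.add (hg s hs).1, by
    rw [LSeries_add (hf s hs).1 (hg s hs).1, ← (hf s hs).2, ← (hg s hs).2]⟩

lemma IsD.mul {f g : ℂ → ℂ} {a b : ℕ → ℂ} (hf : IsD f a) (hg : IsD g b) :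
    IsD (fun s => f s * g s) (LSeries.convolution a b) :=
  fun s hs => ⟨(hf s hs).1.convolution (hg s hs).1, by
    rw [LSeries_convolution' (hf s hs).1 (hg s hs).1, ← (hf s hs).2, ← (hg s hs).2]⟩

lemma isD_poly (P : Polynomial ℂ) : ∃ a, IsD (fun s => P.eval (riemannZeta s)) a := by
  induction P using Polynomial.induction_on' with
  | add p q hp hq =>
    obtain ⟨a, ha⟩ := hp
    obtain ⟨b, hb⟩ := hq
    refine ⟨a + b, ?_⟩
    have := ha.add hb
    simpa only [Polynomial.eval_add] using this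
  | monomial n c =>
    have h1 : ∃ a, IsD (fun s => riemannZeta s ^ n) a := by
      induction n with
      | zero => simpa using isD_const 1
      | succ n ih =>
        obtain ⟨a, ha⟩ := ih
        exact ⟨_, by simpa only [pow_succ] using ha.mul isD_zeta⟩
    obtain ⟨a, ha⟩ := h1
    obtain ⟨b, hb⟩ := isD_const c
    refine ⟨LSeries.convolution b a, ?_⟩
    have := hb.mul ha
    simpa only [Polynomial.eval_monomial] using this

lemma term_add (a : ℕ → ℂ) (s z : ℂ) (n : ℕ) :
    LSeries.term a (s + z) n = LSeries.term a s n * cexp (-((Real.log n : ℝ) * z)) := by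
  rcases eq_or_ne n 0 with rfl | hn
  · simp
  · have h0 : (n : ℂ) ≠ 0 := by exact_mod_cast hn
    rw [LSeries.term_of_ne_zero hn, LSeries.term_of_ne_zero hn, cpow_add _ _ h0, cpow_def_of_ne_zero h0 z,
      ← natCast_log, div_mul_eq_div_div, div_eq_mul_inv (a n / (n : ℂ) ^ s), ← Complex.exp_neg]

lemma FF_series {μ : Measure ℂ} {w : ℂ → ℂ} {R : ℝ} (hg : Good μ w R) {P : Polynomial ℂ} {a : ℕ → ℂ}
    (ha : IsD (fun s => P.eval (riemannZeta s)) a) : IsD (FF μ w P) (fun n => a n * tr μ w (Real.log n)) := by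
  intro s hs
  have hsum := (ha s hs).1
  have hb : ∀ (n : ℕ) (z : ℂ), 0 ≤ z.re → ‖cexp (-((Real.log n : ℝ) * z))‖ ≤ 1 := by
    intro n z hz
    rw [Complex.norm_exp]
    apply Real.exp_le_one_iff.2
    have h1 : 0 ≤ Real.log n := Real.log_natCast_nonneg n
    have h2 : (-((Real.log n : ℝ) * z) : ℂ).re = -(Real.log n * z.re) := by
      rw [neg_re, re_ofReal_mul]
    rw [h2]
    nlinarith [mul_nonneg h1 hz]
  have hint : ∀ n : ℕ, Integrable (fun z => w z * LSeries.term a (s + z) n) μ := by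
    intro n
    simp only [term_add]
    refine hg.int_mul (C := ‖LSeries.term a s n‖) ?_ fun z hz _ => ?_
    · exact (by fun_prop : Continuous fun z : ℂ => LSeries.term a s n * cexp (-((Real.log n : ℝ) * z))).aestronglyMeasurable
    · rw [norm_mul]
      exact mul_le_of_le_one_right (norm_nonneg _) (hb n z hz)
  have hnorm : ∀ n : ℕ, ∫ z, ‖w z * LSeries.term a (s + z) n‖ ∂μ ≤ tm μ w * ‖LSeries.term a s n‖ := by
    intro n
    unfold tm
    rw [← integral_mul_const]
    refine integral_mono_ae (hint n).norm (hg.int.norm.mul_const _) ?_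
    filter_upwards [hg.supp] with z hz
    rw [norm_mul, term_add, norm_mul]
    exact mul_le_mul_of_nonneg_left (mul_le_of_le_one_right (norm_nonneg _) (hb n z hz.1)) (norm_nonneg _)
  have hS : Summable fun n => ∫ z, ‖w z * LSeries.term a (s + z) n‖ ∂μ :=
    Summable.of_nonneg_of_le (fun n => integral_nonneg fun _ => norm_nonneg _) hnorm (hsum.norm.mul_left _)
  have hH := hasSum_integral_of_summable_integral_norm hint hS
  have e1 : ∀ n : ℕ, ∫ z, w z * LSeries.term a (s + z) n ∂μ =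
      LSeries.term (fun n => a n * tr μ w (Real.log n)) s n := by
    intro n
    rcases eq_or_ne n 0 with rfl | hn
    · simp
    · simp only [term_add]
      rw [LSeries.term_of_ne_zero hn, LSeries.term_of_ne_zero hn]
      unfold tr
      have : ∀ z : ℂ, w z * (a n / (n : ℂ) ^ s * cexp (-((Real.log n : ℝ) * z))) =
          (a n / (n : ℂ) ^ s) * (w z * cexp (-((Real.log n : ℝ) * z))) := fun z => by ring
      simp only [this]
      rw [integral_const_mul]
      ring
  have e2 : ∫ z, (∑' n, w z * LSeries.term a (s + z) n) ∂μ = FF μ w P s := by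
    unfold FF
    refine integral_congr_ae ?_
    filter_upwards [hg.supp] with z hz
    have hz1 : 1 < (s + z).re := by rw [add_re]; linarith [hz.1]
    rw [tsum_mul_left]
    congr 1
    exact (ha (s + z) hz1).2.symm
  simp only [e1] at hH
  rw [e2] at hH
  exact ⟨hH.summable, hH.tsum_eq.symm⟩

lemma far {F : ℂ → ℂ} {b : ℕ → ℂ} (hF : IsD F b) (hex : ∃ n : ℕ, 1 ≤ n ∧ b n ≠ 0) :
    ∃ X : ℝ, 2 ≤ X ∧ (∀ s : ℂ, X ≤ s.re → F s ≠ 0) ∧
    ∀ Y : ℝ, X ≤ Y → ∃ a : ℝ, 0 < a ∧ ∀ s : ℂ, s.re = Y → a ≤ ‖F s‖ := by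
  classical
  set m := Nat.find hex with hm
  obtain ⟨hm1, hm2⟩ := Nat.find_spec hex
  rw [← hm] at hm1 hm2
  have hmin : ∀ n : ℕ, 1 ≤ n → n < m → b n = 0 := by
    intro n hn1 hn2
    have := Nat.find_min hex hn2
    push Not at this
    exact this hn1
  have hsum2 : Summable fun n => ‖LSeries.term b 2 n‖ := ((hF 2 (by norm_num)).1).norm
  set K := ∑' n, ‖LSeries.term b 2 n‖ with hK
  have hK0 : 0 ≤ K := tsum_nonneg fun n => norm_nonneg _
  set q : ℝ := m / (m + 1) with hq
  have hm0 : (0 : ℝ) < m := by exact_mod_cast hm1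
  have hq0 : 0 < q := by positivity
  have hq1 : q < 1 := by rw [hq, div_lt_one (by positivity)]; linarith
  have hcm : 0 < ‖b m‖ := norm_pos_iff.2 hm2
  have htend := tendsto_rpow_atTop_of_base_lt_one q (by linarith) hq1
  have hev := htend.eventually_lt_const
    (show (0 : ℝ) < ‖b m‖ / (2 * (K + 1) * (m + 1) ^ 2) by positivity)
  obtain ⟨X0, hX0⟩ := Filter.eventually_atTop.1 hev
  -- the main estimate
  have main : ∀ s : ℂ, max X0 2 ≤ s.re → ‖b m‖ / 2 * (m : ℝ) ^ (-s.re) ≤ ‖F s‖ := by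
    intro s hs
    have hs2 : 2 ≤ s.re := (le_max_right _ _).trans hs
    have hsX : X0 ≤ s.re := (le_max_left _ _).trans hs
    have hsum := (hF s (by linarith)).1
    rw [(hF s (by linarith)).2]
    unfold LSeries
    rw [hsum.tsum_eq_add_tsum_ite m]
    have hterm : ‖LSeries.term b s m‖ = ‖b m‖ * (m : ℝ) ^ (-s.re) := by
      rw [LSeries.norm_term_eq, if_neg (by omega), Real.rpow_neg hm0.le, div_eq_mul_inv]
    have hrest : ‖∑' n, ite (n = m) 0 (LSeries.term b s n)‖ ≤
        K * ((m : ℝ) + 1) ^ (2 - s.re) := by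
      refine tsum_of_norm_bounded (g := fun n => ‖LSeries.term b 2 n‖ *
        ((m : ℝ) + 1) ^ (2 - s.re)) ?_ ?_
      · exact hsum2.hasSum.mul_right _
      · intro n
        by_cases hn : n = m
        · rw [if_pos hn, norm_zero]; positivity
        · rw [if_neg hn]
          rcases Nat.eq_zero_or_pos n with rfl | hn0
          · simp
          · rcases lt_or_gt_of_ne hn with h | h
            · have : LSeries.term b s n = 0 := by
                rw [LSeries.term_def, if_neg (by omega), hmin n hn0 h, zero_div]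
              rw [this, norm_zero]; positivity
            · rw [LSeries.norm_term_eq, LSeries.norm_term_eq, if_neg (by omega),
                if_neg (by omega)]
              have hnpos : (0 : ℝ) < n := by exact_mod_cast hn0
              have e : (n : ℝ) ^ s.re = (n : ℝ) ^ (2 : ℂ).re * (n : ℝ) ^ (s.re - 2) := by
                rw [← Real.rpow_add hnpos]
                congr 1
                simp
              rw [e, ← div_div, div_eq_mul_inv _ ((n : ℝ) ^ (s.re - 2)), ← Real.rpow_neg hnpos.le]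
              have e2 : -(s.re - 2) = 2 - s.re := by ring
              rw [e2]
              have h5 : (n : ℝ) ^ (2 - s.re) ≤ ((m : ℝ) + 1) ^ (2 - s.re) := by
                apply Real.rpow_le_rpow_of_nonpos (by positivity)
                · exact_mod_cast h
                · linarith
              gcongr
    have hbound : K * ((m : ℝ) + 1) ^ (2 - s.re) ≤ ‖b m‖ / 2 * (m : ℝ) ^ (-s.re) := by
      have h1 := hX0 s.re hsX
      have hm1' : (0 : ℝ) < (m : ℝ) + 1 := by positivity
      have h2 : q ^ s.re = (m : ℝ) ^ s.re * ((m : ℝ) + 1) ^ (-s.re) := by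
        rw [hq, Real.div_rpow hm0.le hm1'.le, Real.rpow_neg hm1'.le, div_eq_mul_inv]
      rw [h2, lt_div_iff₀ (by positivity)] at h1
      have h3 : ((m : ℝ) + 1) ^ (2 - s.re) = ((m : ℝ) + 1) ^ 2 * ((m : ℝ) + 1) ^ (-s.re) := by
        rw [sub_eq_add_neg, Real.rpow_add hm1', Real.rpow_two]
      have h4 : (m : ℝ) ^ s.re * (m : ℝ) ^ (-s.re) = 1 := by
        rw [← Real.rpow_add hm0, add_neg_cancel, Real.rpow_zero]
      have h5 : 0 < (m : ℝ) ^ (-s.re) := Real.rpow_pos_of_pos hm0 _
      rw [h3]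
      have h6 : K * (((m : ℝ) + 1) ^ 2 * ((m : ℝ) + 1) ^ (-s.re)) ≤
          (K + 1) * (((m : ℝ) + 1) ^ 2 * ((m : ℝ) + 1) ^ (-s.re)) := by
        gcongr; linarith
      refine h6.trans ?_
      have h7 := mul_le_mul_of_nonneg_right h1.le h5.le
      have h8 : (m : ℝ) ^ s.re * ((m : ℝ) + 1) ^ (-s.re) * (2 * (K + 1) * ((m : ℝ) + 1) ^ 2) *
          (m : ℝ) ^ (-s.re) = ((m : ℝ) ^ s.re * (m : ℝ) ^ (-s.re)) *
          (2 * ((K + 1) * (((m : ℝ) + 1) ^ 2 * ((m : ℝ) + 1) ^ (-s.re)))) := by ring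
      rw [h8, h4, one_mul] at h7
      linarith
    have h10 := norm_sub_le_norm_add (LSeries.term b s m)
      (∑' n, ite (n = m) 0 (LSeries.term b s n))
    rw [hterm] at h10
    have h11 : 0 < (m : ℝ) ^ (-s.re) := Real.rpow_pos_of_pos hm0 _
    nlinarith
  refine ⟨max X0 2, le_max_right _ _, ?_, fun Y hY => ⟨‖b m‖ / 2 * (m : ℝ) ^ (-Y),
    by positivity, ?_⟩⟩
  · intro s hs h0
    have := main s hs
    rw [h0, norm_zero] at this
    have h2 : 0 < ‖b m‖ / 2 * (m : ℝ) ^ (-s.re) := by positivity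
    linarith
  · intro s hs
    have := main s (by rw [hs]; exact hY)
    rwa [hs] at this

/-- bounded far to the right -/
lemma IsD.bdd {F : ℂ → ℂ} {b : ℕ → ℂ} (hF : IsD F b) : ∃ C : ℝ, 0 < C ∧ ∀ s : ℂ, 2 ≤ s.re → ‖F s‖ ≤ C := by
  have hsum2 : Summable fun n => ‖LSeries.term b 2 n‖ := ((hF 2 (by norm_num)).1).norm
  have h0 : 0 ≤ ∑' n, ‖LSeries.term b 2 n‖ := tsum_nonneg fun n => norm_nonneg _
  refine ⟨∑' n, ‖LSeries.term b 2 n‖ + 1, by linarith, fun s hs => ?_⟩
  rw [(hF s (by linarith)).2]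
  unfold LSeries
  have h1 : ‖∑' n, LSeries.term b s n‖ ≤ ∑' n, ‖LSeries.term b 2 n‖ := by
    refine tsum_of_norm_bounded hsum2.hasSum fun n => ?_
    exact LSeries.norm_term_le_of_re_le_re b (by simpa using hs) n
  linarith

lemma IsD.zero_of {F : ℂ → ℂ} {b : ℕ → ℂ} (hF : IsD F b) (hex : ¬ ∃ n : ℕ, 1 ≤ n ∧ b n ≠ 0) :
    ∀ s : ℂ, 1 < s.re → F s = 0 := by
  intro s hs
  push Not at hex
  rw [(hF s hs).2]
  rw [LSeries_congr (g := 0) (fun {n} hn => hex n (Nat.one_le_iff_ne_zero.2 hn)) s]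
  rw [LSeries_zero]
  rfl

end Pool.Agent.H60.ZA
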